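import Mathlib

set_option autoImplicit false

open Finset Filter Topology

namespace Pool.Agent.TH854.BV

lemma sum_ind (n₀ : ℕ) (D : ℝ) :
    Summable (fun n : ℕ => if n < n₀ then D else 0) ∧
      ∑' n : ℕ, (if n < n₀ then D else 0) = n₀ * D := by
  constructor
  · apply summable_of_ne_finset_zero (s := range n₀)
    intro n hn
    rw [Finset.mem_range] at hn
    rw [if_neg hn]
  · rw [tsum_eq_sum (s := range n₀)]
    · rw [Finset.sum_congr rfl (g := fun _ => D)]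
      · rw [Finset.sum_const, card_range, nsmul_eq_mul]
      · intro n hn
        rw [Finset.mem_range] at hn
        rw [if_pos hn]
    · intro n hn
      rw [Finset.mem_range] at hn
      rw [if_neg hn]

lemma sum_pow_bdd (r : ℕ → ℕ) (K : ℕ) (hK : ∀ n, r n ≤ K) (p : ℕ) (q : ℝ) (hq0 : 0 ≤ q)
    (hq1 : q < 1) : Summable (fun n : ℕ => q ^ n * (r n : ℝ) ^ p) := by
  apply Summable.of_nonneg_of_le (f := fun n => (K : ℝ) ^ p * q ^ n)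
  · intro n; positivity
  · intro n
    rw [mul_comm]
    apply mul_le_mul_of_nonneg_right _ (by positivity)
    apply pow_le_pow_left₀ (Nat.cast_nonneg _)
    exact_mod_cast hK n
  · exact (summable_geometric_of_lt_one hq0 hq1).mul_left _

lemma crit_point (s t : ℕ) (h1 : s ^ 2 ≤ t) (h2 : t ≤ (s + 1) ^ 2) :
    (t : ℝ) ^ 2 + (2 * s * (if s ^ 2 < t ∧ t < (s + 1) ^ 2 then (1 : ℝ) else 0) +
      (s : ℝ) ^ 2 * (s + 1) ^ 2) ≤ ((s : ℝ) ^ 2 + (s + 1) ^ 2) * t := by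
  split_ifs with h
  · obtain ⟨a, ha⟩ : ∃ a : ℕ, t = s ^ 2 + 1 + a := ⟨t - (s ^ 2 + 1), by omega⟩
    obtain ⟨b, hb⟩ : ∃ b : ℕ, (s + 1) ^ 2 = t + 1 + b := ⟨(s + 1) ^ 2 - (t + 1), by omega⟩
    have hab : a + b + 1 = 2 * s := by
      have : (s + 1) ^ 2 = s ^ 2 + 2 * s + 1 := by ring
      omega
    have e1 : (t : ℝ) = (s : ℝ) ^ 2 + 1 + a := by rw [ha]; push_cast; ring
    have e2 : ((s : ℝ) + 1) ^ 2 = t + 1 + b := by exact_mod_cast hb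
    have e3 : (a : ℝ) + b + 1 = 2 * s := by exact_mod_cast hab
    have e4 : (0 : ℝ) ≤ (a : ℝ) * b := by positivity
    rw [e2]
    have e5 : ((s : ℝ) ^ 2 + (t + 1 + b)) * t - (t : ℝ) ^ 2 - (s : ℝ) ^ 2 * (t + 1 + b) =
        (1 + b) * (t - (s : ℝ) ^ 2) := by ring
    have e6 : (t : ℝ) - (s : ℝ) ^ 2 = 1 + a := by rw [e1]; ring
    rw [e6] at e5
    nlinarith
  · have h1' : (s : ℝ) ^ 2 ≤ t := by exact_mod_cast h1
    have h2' : (t : ℝ) ≤ ((s : ℝ) + 1) ^ 2 := by exact_mod_cast h2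
    nlinarith [mul_nonneg (sub_nonneg.2 h1') (sub_nonneg.2 h2')]

/-- `∑ q^n (r - s^2)((s+1)^2 - r)` for a function with `s^2 ≤ r ≤ (s+1)^2` from `n₀` on -/
lemma crit_aux (s : ℕ) (r : ℕ → ℕ) (K n₀ : ℕ) (hK : ∀ n, r n ≤ K)
    (hr : ∀ n, n₀ ≤ n → s ^ 2 ≤ r n ∧ r n ≤ (s + 1) ^ 2) (q : ℝ) (hq0 : 0 ≤ q) (hq1 : q < 1) :
    ∑' n : ℕ, q ^ n * (r n : ℝ) ^ 2 +
      2 * s * ∑' n : ℕ, q ^ n * (if s ^ 2 < r n ∧ r n < (s + 1) ^ 2 then (1 : ℝ) else 0)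
      + (s : ℝ) ^ 2 * (s + 1) ^ 2 * (1 - q)⁻¹ ≤ ((s : ℝ) ^ 2 + (s + 1) ^ 2) * ∑' n : ℕ, q ^ n * (r n : ℝ)
        + n₀ * ((K : ℝ) ^ 2 + 2 * s + (s : ℝ) ^ 2 * (s + 1) ^ 2) ∧
    ∑' n : ℕ, q ^ n * (r n : ℝ) ≤ ((s : ℝ) + 1) ^ 2 * (1 - q)⁻¹ + n₀ * (K : ℝ) := by
  have hg := summable_geometric_of_lt_one hq0 hq1
  have s1 := sum_pow_bdd r K hK 1 q hq0 hq1
  simp only [pow_one] at s1
  have s2 := sum_pow_bdd r K hK 2 q hq0 hq1
  obtain ⟨s3, e3⟩ := sum_ind n₀ ((K : ℝ) ^ 2 + 2 * s + (s : ℝ) ^ 2 * (s + 1) ^ 2)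
  obtain ⟨s5, e5⟩ := sum_ind n₀ (K : ℝ)
  have s4 : Summable (fun n : ℕ => q ^ n *
      (if s ^ 2 < r n ∧ r n < (s + 1) ^ 2 then (1 : ℝ) else 0)) := by
    apply Summable.of_nonneg_of_le _ _ hg
    · intro n
      have : 0 ≤ q ^ n := by positivity
      split_ifs
      · linarith
      · linarith
    · intro n
      have : 0 ≤ q ^ n := by positivity
      split_ifs
      · linarith
      · linarith
  constructor
  · have key1 : ∑' n : ℕ, (q ^ n * (r n : ℝ) ^ 2 +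
        (2 * s * (q ^ n * (if s ^ 2 < r n ∧ r n < (s + 1) ^ 2 then (1 : ℝ) else 0)) +
          (s : ℝ) ^ 2 * (s + 1) ^ 2 * q ^ n)) ≤
        ∑' n : ℕ, (((s : ℝ) ^ 2 + (s + 1) ^ 2) * (q ^ n * (r n : ℝ)) +
          (if n < n₀ then ((K : ℝ) ^ 2 + 2 * s + (s : ℝ) ^ 2 * (s + 1) ^ 2) else 0)) := by
      apply Summable.tsum_le_tsum _ (s2.add ((s4.mul_left _).add (hg.mul_left _)))
        ((s1.mul_left _).add s3)
      intro n
      have hqn : 0 ≤ q ^ n := by positivity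
      by_cases hn : n < n₀
      · rw [if_pos hn]
        have hqn1 : q ^ n ≤ 1 := pow_le_one₀ hq0 hq1.le
        have a1 : q ^ n * (r n : ℝ) ^ 2 ≤ 1 * (K : ℝ) ^ 2 := by
          apply mul_le_mul hqn1 _ (by positivity) zero_le_one
          apply pow_le_pow_left₀ (Nat.cast_nonneg _)
          exact_mod_cast hK n
        have a2 : q ^ n * (if s ^ 2 < r n ∧ r n < (s + 1) ^ 2 then (1 : ℝ) else 0) ≤ 1 * 1 := by
          apply mul_le_mul hqn1 _ _ zero_le_one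
          · split_ifs <;> norm_num
          · split_ifs <;> norm_num
        have a2' := mul_le_mul_of_nonneg_left a2 (by positivity : (0 : ℝ) ≤ 2 * s)
        have a3 : 0 ≤ ((s : ℝ) ^ 2 + (s + 1) ^ 2) * (q ^ n * (r n : ℝ)) := by positivity
        have a4 : (s : ℝ) ^ 2 * (s + 1) ^ 2 * q ^ n ≤ (s : ℝ) ^ 2 * (s + 1) ^ 2 * 1 :=
          mul_le_mul_of_nonneg_left hqn1 (by positivity)
        linarith
      · rw [if_neg hn, add_zero]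
        obtain ⟨b1, b2⟩ := hr n (by omega)
        have := mul_le_mul_of_nonneg_left (crit_point s (r n) b1 b2) hqn
        linarith
    rw [Summable.tsum_add s2 ((s4.mul_left _).add (hg.mul_left _)),
      Summable.tsum_add (s4.mul_left _) (hg.mul_left _), Summable.tsum_add (s1.mul_left _) s3,
      tsum_mul_left, tsum_mul_left, tsum_mul_left, e3, tsum_geometric_of_lt_one hq0 hq1] at key1
    linarith
  · have key2 : ∑' n : ℕ, q ^ n * (r n : ℝ) ≤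
        ∑' n : ℕ, (((s : ℝ) + 1) ^ 2 * q ^ n + (if n < n₀ then (K : ℝ) else 0)) := by
      apply Summable.tsum_le_tsum _ s1 ((hg.mul_left _).add s5)
      intro n
      have hqn : 0 ≤ q ^ n := by positivity
      by_cases hn : n < n₀
      · rw [if_pos hn]
        have hqn1 : q ^ n ≤ 1 := pow_le_one₀ hq0 hq1.le
        have a1 : q ^ n * (r n : ℝ) ≤ 1 * (K : ℝ) := by
          apply mul_le_mul hqn1 _ (by positivity) zero_le_one
          exact_mod_cast hK n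
        have a2 : 0 ≤ ((s : ℝ) + 1) ^ 2 * q ^ n := by positivity
        linarith
      · rw [if_neg hn, add_zero, mul_comm]
        apply mul_le_mul_of_nonneg_right _ hqn
        exact_mod_cast (hr n (by omega)).2
    rw [Summable.tsum_add (hg.mul_left _) s5, tsum_mul_left, e5,
      tsum_geometric_of_lt_one hq0 hq1] at key2
    exact key2

/-- conclusion for a function which satisfies the variance inequality -/
lemma crit_of_law (s : ℕ) (r : ℕ → ℕ) (K n₀ : ℕ) (hK : ∀ n, r n ≤ K)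
    (hr : ∀ n, n₀ ≤ n → s ^ 2 ≤ r n ∧ r n ≤ (s + 1) ^ 2) (C : ℝ) (hC : 1 ≤ C) (ε : ℝ) (hε : 0 < ε)
    (hlaw : ∀ᶠ q : ℝ in 𝓝[<] 1, ((1 - q) * ∑' n : ℕ, q ^ n * (r n : ℝ)) ^ 2 +
      (1 - 1 / C) * ((1 - q) * ∑' n : ℕ, q ^ n * (r n : ℝ)) - ε / 3 ≤
        (1 - q) * ∑' n : ℕ, q ^ n * (r n : ℝ) ^ 2) :
    ∀ᶠ q : ℝ in 𝓝[<] 1, ((1 - q) * ∑' n : ℕ, q ^ n * (r n : ℝ) - s * (s + 1)) ^ 2 +
      2 * s * ((1 - q) * ∑' n : ℕ, q ^ n *
        (if s ^ 2 < r n ∧ r n < (s + 1) ^ 2 then (1 : ℝ) else 0)) ≤ ((s : ℝ) + 1) ^ 2 / C + ε := by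
  set D : ℝ := n₀ * ((K : ℝ) ^ 2 + 2 * s + (s : ℝ) ^ 2 * (s + 1) ^ 2) + n₀ * (K : ℝ) with hD
  have hsm : ∀ᶠ q : ℝ in 𝓝[<] 1, (1 - q) * D ≤ ε / 3 := by
    have t : Tendsto (fun q : ℝ => (1 - q) * D) (𝓝[<] 1) (𝓝 0) := by
      have : Tendsto (fun q : ℝ => (1 - q) * D) (𝓝 1) (𝓝 ((1 - 1) * D)) :=
        ((continuous_const.sub continuous_id).mul continuous_const).tendsto (1 : ℝ)
      rw [sub_self, zero_mul] at this
      exact this.mono_left nhdsWithin_le_nhds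
    exact (t.eventually (gt_mem_nhds (by positivity))).mono fun x hx => hx.le
  have h01 : ∀ᶠ q : ℝ in 𝓝[<] 1, 0 < q ∧ q < 1 := by
    have : Set.Ioo (0 : ℝ) 1 ∈ 𝓝[<] (1 : ℝ) := Ioo_mem_nhdsLT (by norm_num)
    exact this
  filter_upwards [hlaw, hsm, h01] with q h1 h2 hq01
  obtain ⟨hq0, hq1⟩ := hq01
  obtain ⟨k1, k2⟩ := crit_aux s r K n₀ hK hr q hq0.le hq1
  have hu : 0 < 1 - q := by linarith
  have hu0 : (1 - q) ≠ 0 := hu.ne'
  have k1' := mul_le_mul_of_nonneg_left k1 hu.le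
  have k2' := mul_le_mul_of_nonneg_left k2 hu.le
  have c1 : (1 - q) * (1 - q)⁻¹ = 1 := mul_inv_cancel₀ hu0
  set lam := (1 - q) * ∑' n : ℕ, q ^ n * (r n : ℝ) with hlam
  set mu := (1 - q) * ∑' n : ℕ, q ^ n * (r n : ℝ) ^ 2 with hmu
  set d := (1 - q) * ∑' n : ℕ, q ^ n *
    (if s ^ 2 < r n ∧ r n < (s + 1) ^ 2 then (1 : ℝ) else 0) with hd
  have m1 : mu + 2 * s * d + (s : ℝ) ^ 2 * (s + 1) ^ 2 ≤ ((s : ℝ) ^ 2 + (s + 1) ^ 2) * lam +
      (1 - q) * (n₀ * ((K : ℝ) ^ 2 + 2 * s + (s : ℝ) ^ 2 * (s + 1) ^ 2)) := by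
    calc mu + 2 * s * d + (s : ℝ) ^ 2 * (s + 1) ^ 2
        = mu + 2 * s * d + (s : ℝ) ^ 2 * (s + 1) ^ 2 * ((1 - q) * (1 - q)⁻¹) := by rw [c1]; ring
      _ = (1 - q) * (∑' n : ℕ, q ^ n * (r n : ℝ) ^ 2 +
            2 * s * ∑' n : ℕ, q ^ n * (if s ^ 2 < r n ∧ r n < (s + 1) ^ 2 then (1 : ℝ) else 0) +
            (s : ℝ) ^ 2 * (s + 1) ^ 2 * (1 - q)⁻¹) := by
          rw [hmu, hd]; ring
      _ ≤ _ := k1'
      _ = _ := by rw [hlam]; ring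
  have m2 : lam ≤ ((s : ℝ) + 1) ^ 2 + (1 - q) * (n₀ * (K : ℝ)) := by
    calc lam ≤ (1 - q) * (((s : ℝ) + 1) ^ 2 * (1 - q)⁻¹ + n₀ * (K : ℝ)) := k2'
      _ = ((s : ℝ) + 1) ^ 2 * ((1 - q) * (1 - q)⁻¹) + (1 - q) * (n₀ * (K : ℝ)) := by ring
      _ = _ := by rw [c1]; ring
  have hC0 : 0 < C := by linarith
  have m3 : lam / C ≤ ((s : ℝ) + 1) ^ 2 / C + (1 - q) * (n₀ * (K : ℝ)) := by
    have a1 : lam / C ≤ (((s : ℝ) + 1) ^ 2 + (1 - q) * (n₀ * (K : ℝ))) / C :=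
      div_le_div_of_nonneg_right m2 hC0.le
    have a2 : ((1 - q) * (n₀ * (K : ℝ))) / C ≤ (1 - q) * (n₀ * (K : ℝ)) :=
      div_le_self (by positivity) hC
    rw [add_div] at a1
    linarith
  have m4 : (1 - q) * D = (1 - q) * (n₀ * ((K : ℝ) ^ 2 + 2 * s + (s : ℝ) ^ 2 * (s + 1) ^ 2)) +
      (1 - q) * (n₀ * (K : ℝ)) := by
    rw [hD]; ring
  have m5 : (1 - 1 / C) * lam = lam - lam / C := by ring
  rw [m5] at h1
  rw [m4] at h2
  have m6 : (lam - s * (s + 1)) ^ 2 = lam ^ 2 - ((s : ℝ) ^ 2 + (s + 1) ^ 2 - 1) * lam +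
      (s : ℝ) ^ 2 * (s + 1) ^ 2 := by ring
  rw [m6]
  linarith

end Pool.Agent.TH854.BV
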