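import Pool.Agent.TH854.BV.Low

set_option autoImplicit false

open Finset

namespace Pool.Agent.TH854.BV

open Pool.Agent.H396R2

/-- windows for pairs of sets with fewer than `h` elements in total contain few sums -/
lemma window_PW (F : Finset ℕ) (a b h K0 L a0 : ℕ) (hab : a + b + 1 ≤ h) (ha0 : a0 ∈ F)
    (hK : ∀ n, rM F h n ≤ K0) (y i : ℕ) :
    ((PW F a b).filter (fun ω => y ≤ nu ω + i ∧ nu ω + i < y + L)).card
      * (F.filter (fun c => c < L)).card ≤ 4 ^ h * (2 * L * K0) := by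
  classical
  set S0 := (PW F a b).filter (fun ω => y ≤ nu ω + i ∧ nu ω + i < y + L) with hS0
  set e := (h - 1 - a - b) * a0 with he
  set f : (Finset ℕ × Finset ℕ) × ℕ → Multiset ℕ := fun p =>
    p.1.1.val + p.1.2.val + Multiset.replicate (h - 1 - a - b) a0 + {p.2} with hf
  have hfsum : ∀ p, (f p).sum = nu p.1 + e + p.2 := by
    intro p
    rw [hf]
    simp only [Multiset.sum_add, Multiset.sum_replicate, Multiset.sum_singleton, smul_eq_mul,
      Finset.sum_val]
    rfl
  set T0 := (Finset.Ico y (y + 2 * L)).biUnion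
          (fun n => (msets F h).filter (fun M => M.sum + i = n + e)) with hT0
  rw [← Finset.card_product]
  have h1 : (S0 ×ˢ (F.filter (fun c => c < L))).card ≤ 4 ^ h * T0.card := by
    apply Finset.card_le_mul_card_image_of_maps_to (f := f)
    · intro p hp
      rw [Finset.mem_product, hS0, Finset.mem_filter, Finset.mem_filter, mem_PW] at hp
      obtain ⟨⟨⟨⟨a1, a2⟩, a3, a4⟩, a5, a6⟩, a7, a8⟩ := hp
      rw [hT0, Finset.mem_biUnion]
      refine ⟨nu p.1 + i + p.2, ?_, ?_⟩
      · rw [Finset.mem_Ico]; omega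
      · rw [Finset.mem_filter, mem_msets, hfsum]
        refine ⟨⟨?_, ?_⟩, by omega⟩
        · rw [hf]
          simp only [Multiset.card_add, Multiset.card_replicate, Multiset.card_singleton]
          have b1 : Multiset.card p.1.1.val = a := a2
          have b2 : Multiset.card p.1.2.val = b := a4
          omega
        · intro c hc
          rw [hf] at hc
          simp only [Multiset.mem_add, Multiset.mem_singleton] at hc
          rcases hc with ((hc | hc) | hc) | hc
          · exact a1 hc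
          · exact a3 hc
          · rw [Multiset.eq_of_mem_replicate hc]; exact ha0
          · rw [hc]; exact a7
    · intro M hM
      have hcM : Multiset.card M = h := by
        rw [hT0, Finset.mem_biUnion] at hM
        obtain ⟨n, _, hn⟩ := hM
        rw [Finset.mem_filter, mem_msets] at hn
        exact hn.1.1
      have h2 : ((S0 ×ˢ (F.filter (fun c => c < L))).filter (fun p => f p = M)).card ≤
          ((Multiset.powerset M).toFinset ×ˢ (Multiset.powerset M).toFinset).card := by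
        apply Finset.card_le_card_of_injOn (fun p => (p.1.1.val, p.1.2.val))
        · intro p hp
          rw [Finset.mem_coe, Finset.mem_filter] at hp
          rw [Finset.mem_coe, Finset.mem_product, Multiset.mem_toFinset, Multiset.mem_toFinset,
            Multiset.mem_powerset, Multiset.mem_powerset, ← hp.2, hf]
          simp only
          constructor
          · exact (Multiset.le_add_right _ _).trans
              ((Multiset.le_add_right _ _).trans (Multiset.le_add_right _ _))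
          · exact (Multiset.le_add_left _ _).trans
              ((Multiset.le_add_right _ _).trans (Multiset.le_add_right _ _))
        · intro p hp p' hp' hpp
          rw [Finset.mem_coe, Finset.mem_filter] at hp hp'
          simp only [Prod.mk.injEq] at hpp
          have e1 : p.1.1 = p'.1.1 := Finset.val_injective hpp.1
          have e2 : p.1.2 = p'.1.2 := Finset.val_injective hpp.2
          have e3 : f p = f p' := by rw [hp.2, hp'.2]
          have e4 : p.1 = p'.1 := Prod.ext e1 e2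
          have e5 : (f p).sum = (f p').sum := by rw [e3]
          rw [hfsum, hfsum, e4] at e5
          exact Prod.ext e4 (by omega)
      refine h2.trans ?_
      rw [Finset.card_product]
      have h3 : (Multiset.powerset M).toFinset.card ≤ 2 ^ h := by
        refine (Multiset.toFinset_card_le _).trans ?_
        rw [Multiset.card_powerset, hcM]
      calc _ ≤ 2 ^ h * 2 ^ h := Nat.mul_le_mul h3 h3
        _ = 4 ^ h := by rw [← mul_pow]; norm_num
  refine h1.trans (Nat.mul_le_mul_left _ ?_)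
  refine (Finset.card_biUnion_le_card_mul _ _ K0 ?_).trans ?_
  · intro n _
    by_cases hn : i ≤ n + e
    · have e' : (msets F h).filter (fun M => M.sum + i = n + e)
          = (msets F h).filter (fun M => M.sum = n + e - i) := by
        ext M
        rw [Finset.mem_filter, Finset.mem_filter]
        constructor
        · rintro ⟨a, b⟩; exact ⟨a, by omega⟩
        · rintro ⟨a, b⟩; exact ⟨a, by omega⟩
      rw [e']
      exact hK (n + e - i)
    · have e' : (msets F h).filter (fun M => M.sum + i = n + e) = ∅ := by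
        rw [Finset.filter_eq_empty_iff]
        intro M _
        omega
      rw [e']
      simp
  · rw [Nat.card_Ico]
    have : y + 2 * L - y = 2 * L := by omega
    rw [this]

lemma nu_le (F : Finset ℕ) (k m T : ℕ) (hT : ∀ a ∈ F, a ≤ T) (ω : Finset ℕ × Finset ℕ)
    (hω : ω ∈ PW F k m) : nu ω ≤ (k + m) * T := by
  unfold PW at hω
  rw [Finset.mem_product] at hω
  have h1 := sum_le_of_mem hT hω.1
  have h2 := sum_le_of_mem hT hω.2
  unfold nu
  rw [add_mul]
  omega

/-- The main inequality for finite sets. -/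
theorem core (F : Finset ℕ) (k m : ℕ) (hmk : m ≤ k) (x : ℝ) (hx0 : 0 < x)
    (hx1 : x < 1) (T : ℕ) (hT : ∀ a ∈ F, a ≤ T) (K0 : ℕ) (hK : ∀ n, rM F (k + m) n ≤ K0)
    (L : ℕ) (hL : 0 < L) (hxL : 1 / 2 ≤ x ^ L) (a0 : ℕ) (ha0 : a0 ∈ F) (α : ℝ) (hα : 0 < α)
    (hαF : α ≤ (F.filter (fun c => c < L)).card) (θ : ℝ) (hθ : 0 < θ)
    (hP : (k + m : ℝ) ≤ pp F x)
    (hY : (L : ℝ) * (((k + m).choose m : ℝ) * K0) ≤ ee F x k * ee F x m) :
    (1 - x ^ 2) * (ee F x k * ee F x m - L * (((k + m).choose m : ℝ) * K0)) ^ 2 +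
      (pp F x - (k + m)) ^ (k + m) * ((((k + m).choose m : ℝ) - 1) /
        ((k.factorial : ℝ) * (m.factorial : ℝ))) -
      θ⁻¹ * (4 * m ^ 2 * 4 ^ (k + m) * K0 / α) * (pp F x) ^ (k + m)
      ≤ (1 + θ) * (((k + m).choose m : ℝ) ^ 2 *
        ∑ n ∈ range ((k + m) * T + 1), x ^ (2 * n) * (rM F (k + m) n : ℝ) ^ 2) := by
  set C : ℝ := ((k + m).choose m : ℝ) with hC
  set S2 := ∑ n ∈ range ((k + m) * T + 1), x ^ (2 * n) * (rM F (k + m) n : ℝ) ^ 2 with hS2
  set B := (k + m) * T + L + 1 with hBdef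
  have : NeZero B := ⟨by omega⟩
  set q := pp F x - (k + m) with hq
  have hq0 : 0 ≤ q := by linarith
  have hqP : q ≤ pp F x := by
    have : (0 : ℝ) ≤ k + m := by positivity
    linarith
  set Q : ℕ → ℝ := fun j => q ^ j / (j.factorial : ℝ) with hQ
  have hW1 : ∀ j < m, ∀ y i, (((PW F (k - (j + 1)) (m - (j + 1))).filter
      (fun ω => y ≤ nu ω + i ∧ nu ω + i < y + L)).card : ℝ) ≤ 4 ^ (k + m) * (2 * L * K0) / α := by
    intro j hj y i
    have h1 := window_PW F (k - (j + 1)) (m - (j + 1)) (k + m) K0 L a0 (by omega) ha0 hK y i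
    rw [le_div_iff₀ hα]
    calc _ ≤ (((PW F (k - (j + 1)) (m - (j + 1))).filter
          (fun ω => y ≤ nu ω + i ∧ nu ω + i < y + L)).card : ℝ) *
            ((F.filter (fun c => c < L)).card : ℝ) :=
          mul_le_mul_of_nonneg_left hαF (Nat.cast_nonneg _)
      _ ≤ _ := by exact_mod_cast h1
  have hBs : ∀ a b, a ≤ k → b ≤ m → ∀ ω ∈ PW F a b, nu ω + L < B := by
    intro a b ha hb ω hω
    have h1 := nu_le F a b T hT ω hω
    have h2 : (a + b) * T ≤ (k + m) * T := Nat.mul_le_mul_right _ (by omega)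
    omega
  have hQle : ∀ j < m, ∀ ω ∈ DP F (k - (j + 1)) (m - (j + 1)),
      Q (j + 1) ≤ ee (F \ (ω.1 ∪ ω.2)) x (j + 1) := by
    intro j hj ω hω
    rw [mem_DP] at hω
    apply ee_ge _ x hx0.le hx1.le q hq0
    have h1 := pp_sdiff_ge F (ω.1 ∪ ω.2) x hx0.le hx1.le
    have h2 : (ω.1 ∪ ω.2).card ≤ (k - (j + 1)) + (m - (j + 1)) := by
      refine (Finset.card_union_le _ _).trans ?_
      rw [hω.1.1.2, hω.1.2.2]
    have h3 : ((ω.1 ∪ ω.2).card : ℝ) + ((j + 1 : ℕ) : ℝ) ≤ k + m := by
      have : (ω.1 ∪ ω.2).card + (j + 1) ≤ k + m := by omega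
      exact_mod_cast this
    linarith
  have ht0 : ∀ κ, 0 ≤ tq F k m x B Q κ := by
    intro κ
    unfold tq
    apply Finset.sum_nonneg
    intro j _
    exact mul_nonneg (by rw [hQ]; positivity) (df_nonneg F _ _ x hx0.le B κ)
  have E1 := energy_two L (fun i => (i : ZMod B)) (tq F k m x B Q) (sf' F k m x B) ht0
    (tq_le F k m hmk x hx0.le B Q hQle) θ hθ
  have E2 := sum_tq_sq_ge F k m hmk x hx0.le hx1.le B q hq0 (by rw [hq]; linarith)
  have E3 := sum_win_tq_le F k m L hmk x hx0 hx1.le hxL B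
    (fun j hj ω hω => hBs _ _ (Nat.sub_le _ _) (Nat.sub_le _ _) ω hω) _ hW1 q hq0 hqP
  have hcnt : ∀ n, (cnt (PW F k m) nu n : ℝ) ≤ C * (rM F (k + m) n : ℝ) := by
    intro n
    have := cnt_PW_le F k m n
    rw [hC]
    exact_mod_cast this
  have hC0 : 0 ≤ C := Nat.cast_nonneg _
  have hCR : ∀ n, (cnt (PW F k m) nu n : ℝ) ≤ C * K0 := by
    intro n
    refine (hcnt n).trans (mul_le_mul_of_nonneg_left ?_ hC0)
    exact_mod_cast hK n
  have E4 := win_RR_ge (P := PW F k m) (ν := nu) (B := B) (L := L) hx0 hx1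
    (hBs k m le_rfl le_rfl) (C * K0) hCR (by rw [sum_PW]; exact hY)
  rw [sum_PW, win_sf] at E4
  have E5 : ∑ κ, (sf' F k m x B κ) ^ 2 ≤ C ^ 2 * S2 := by
    rw [← sq_RR, sum_RR_sq (N := (k + m) * T + 1)
      (fun ω hω => by have := nu_le F k m T hT ω hω; omega) (by omega), hS2, Finset.mul_sum]
    apply Finset.sum_le_sum
    intro n _
    calc x ^ (2 * n) * (cnt (PW F k m) nu n : ℝ) ^ 2
        ≤ x ^ (2 * n) * (C * (rM F (k + m) n : ℝ)) ^ 2 := by
          apply mul_le_mul_of_nonneg_left _ (by positivity)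
          exact pow_le_pow_left₀ (Nat.cast_nonneg _) (hcnt n) 2
      _ = _ := by ring
  have E6 : ∑ κ, (win L (fun i => (i : ZMod B)) (sf' F k m x B) κ) ^ 2 ≤
      (L : ℝ) ^ 2 * ∑ κ, (sf' F k m x B κ) ^ 2 := win_sq_le L _ _
  have hL0 : (0 : ℝ) < L := by exact_mod_cast hL
  have hL2 : (0 : ℝ) < (L : ℝ) ^ 2 := by positivity
  set SS := ∑ κ, (sf' F k m x B κ) ^ 2 with hSS
  set WS := ∑ κ, (win L (fun i => (i : ZMod B)) (sf' F k m x B) κ) ^ 2 with hWS
  set ST := ∑ κ, (tq F k m x B Q κ) ^ 2 with hST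
  set WT := ∑ κ, (win L (fun i => (i : ZMod B)) (tq F k m x B Q) κ) ^ 2 with hWT
  set Y := ee F x k * ee F x m with hYd
  have hθi : 0 < θ⁻¹ := inv_pos.2 hθ
  have E7 : θ * WS ≤ θ * ((L : ℝ) ^ 2 * SS) := mul_le_mul_of_nonneg_left E6 hθ.le
  have E8 : θ⁻¹ * WT ≤ θ⁻¹ * (2 * m ^ 2 * L * (4 ^ (k + m) * (2 * L * K0) / α) *
      (pp F x) ^ (k + m)) := mul_le_mul_of_nonneg_left E3 hθi.le
  have E9 := mul_le_mul_of_nonneg_left E2 hL2.le
  have key : (L : ℝ) ^ 2 * ((1 - x ^ 2) * (Y - L * (C * K0)) ^ 2 + q ^ (k + m) * ((C - 1) /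
        ((k.factorial : ℝ) * (m.factorial : ℝ))) -
      θ⁻¹ * (4 * m ^ 2 * 4 ^ (k + m) * K0 / α) * (pp F x) ^ (k + m)) ≤
      (L : ℝ) ^ 2 * ((1 + θ) * SS) := by
    have e1 : θ⁻¹ * (2 * m ^ 2 * L * (4 ^ (k + m) * (2 * L * K0) / α) * (pp F x) ^ (k + m)) =
        (L : ℝ) ^ 2 * (θ⁻¹ * (4 * m ^ 2 * 4 ^ (k + m) * K0 / α) * (pp F x) ^ (k + m)) := by
      ring
    rw [e1] at E8
    nlinarith
  have key2 := le_of_mul_le_mul_left key hL2
  refine key2.trans ?_
  exact mul_le_mul_of_nonneg_left E5 (by linarith)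

end Pool.Agent.TH854.BV
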