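import Pool.Agent.TH854.BV.Gen

set_option autoImplicit false

open Finset

namespace Pool.Agent.TH854.BV

open Pool.Agent.H396R2

lemma pp_nonneg (F : Finset ℕ) (x : ℝ) : 0 ≤ pp F x := by
  unfold pp
  exact Finset.sum_nonneg fun a _ => by rw [pow_mul]; positivity

/-- `(j+1) e_{j+1} ≥ (p - j) e_j` -/
lemma ee_succ_ge (F : Finset ℕ) (x : ℝ) (hx0 : 0 ≤ x) (hx1 : x ≤ 1) (j : ℕ) :
    (pp F x - j) * ee F x j ≤ (j + 1 : ℝ) * ee F x (j + 1) := by
  classical
  unfold ee
  set Q := ((F.powersetCard j) ×ˢ F).filter (fun q => q.2 ∉ q.1) with hQ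
  have h1 : (pp F x - j) * ∑ Z ∈ F.powersetCard j, x ^ (2 * ∑ a ∈ Z, a) ≤
      ∑ q ∈ Q, x ^ (2 * ∑ a ∈ q.1, a) * x ^ (2 * q.2) := by
    rw [hQ, Finset.sum_filter, Finset.sum_product, Finset.mul_sum]
    apply Finset.sum_le_sum
    intro Z hZ
    rw [Finset.mem_powersetCard] at hZ
    rw [← Finset.sum_filter]
    simp only
    rw [← Finset.mul_sum, mul_comm]
    apply mul_le_mul_of_nonneg_left _ (by positivity)
    have h2 : pp F x = ∑ a ∈ F with a ∉ Z, x ^ (2 * a) + ∑ a ∈ Z, x ^ (2 * a) := by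
      unfold pp
      rw [← Finset.sum_filter_add_sum_filter_not F (fun a => a ∉ Z)]
      congr 1
      apply Finset.sum_congr _ (fun _ _ => rfl)
      ext a
      rw [Finset.mem_filter]
      constructor
      · rintro ⟨_, h⟩
        exact not_not.1 h
      · intro h
        exact ⟨hZ.1 h, not_not.2 h⟩
    have h3 : ∑ a ∈ Z, x ^ (2 * a) ≤ j := by
      calc ∑ a ∈ Z, x ^ (2 * a) ≤ ∑ a ∈ Z, (1 : ℝ) := by
            apply Finset.sum_le_sum
            intro a _
            exact pow_le_one₀ hx0 hx1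
        _ = j := by simp [hZ.2]
    linarith
  refine h1.trans ?_
  have h4 : (j + 1 : ℝ) * ∑ Z ∈ F.powersetCard (j + 1), x ^ (2 * ∑ a ∈ Z, a)
      = ∑ q ∈ (F.powersetCard (j + 1)).sigma (fun U => U), x ^ (2 * ∑ a ∈ q.1, a) := by
    rw [Finset.sum_sigma, Finset.mul_sum]
    apply Finset.sum_congr rfl
    intro U hU
    rw [Finset.mem_powersetCard] at hU
    simp only
    rw [Finset.sum_const, hU.2, nsmul_eq_mul]
    push_cast
    ring
  rw [h4]
  have hinj : Set.InjOn (fun q : Finset ℕ × ℕ => (⟨insert q.2 q.1, q.2⟩ : (_ : Finset ℕ) × ℕ))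
      (Q : Set (Finset ℕ × ℕ)) := by
    rintro ⟨Z, b⟩ hq ⟨Z', b'⟩ hq' h
    rw [Finset.mem_coe, hQ, Finset.mem_filter] at hq hq'
    simp only [Sigma.mk.injEq, heq_eq_eq] at h hq hq'
    obtain ⟨h1, h2⟩ := h
    subst h2
    have : Z = Z' := by
      rw [← Finset.erase_insert hq.2, ← Finset.erase_insert hq'.2, h1]
    rw [this]
  have h5 : ∑ q ∈ Q, x ^ (2 * ∑ a ∈ q.1, a) * x ^ (2 * q.2)
      = ∑ r ∈ Q.image (fun q : Finset ℕ × ℕ => (⟨insert q.2 q.1, q.2⟩ : (_ : Finset ℕ) × ℕ)),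
        x ^ (2 * ∑ a ∈ r.1, a) := by
    rw [Finset.sum_image hinj]
    apply Finset.sum_congr rfl
    rintro ⟨Z, b⟩ hq
    rw [hQ, Finset.mem_filter] at hq
    simp only at hq ⊢
    rw [Finset.sum_insert hq.2, ← pow_add]
    congr 1
    ring
  rw [h5]
  apply Finset.sum_le_sum_of_subset_of_nonneg
  · intro r hr
    rw [Finset.mem_image] at hr
    obtain ⟨⟨Z, b⟩, hq, rfl⟩ := hr
    rw [hQ, Finset.mem_filter, Finset.mem_product, Finset.mem_powersetCard] at hq
    simp only at hq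
    rw [Finset.mem_sigma, Finset.mem_powersetCard]
    refine ⟨⟨?_, ?_⟩, Finset.mem_insert_self _ _⟩
    · intro a ha
      simp only [Finset.mem_insert] at ha
      rcases ha with rfl | ha
      · exact hq.1.2
      · exact hq.1.1.1 ha
    · simp only
      rw [Finset.card_insert_of_notMem hq.2, hq.1.1.2]
  · intro r _ _
    positivity

lemma ee_zero (F : Finset ℕ) (x : ℝ) : ee F x 0 = 1 := by
  unfold ee
  simp

lemma ee_ge (F : Finset ℕ) (x : ℝ) (hx0 : 0 ≤ x) (hx1 : x ≤ 1) (q : ℝ) (hq : 0 ≤ q) (j : ℕ)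
    (h : q + j ≤ pp F x) : q ^ j / (j.factorial : ℝ) ≤ ee F x j := by
  induction j with
  | zero => simp [ee_zero]
  | succ j ih =>
    push_cast at h
    have h1 := ih (by linarith)
    have h2 := ee_succ_ge F x hx0 hx1 j
    have h3 : 0 < (j : ℝ) + 1 := by positivity
    have h4 : q * (q ^ j / (j.factorial : ℝ)) ≤ (pp F x - j) * ee F x j :=
      mul_le_mul (by linarith) h1 (by positivity) (by linarith)
    have h5 : q ^ (j + 1) / ((j + 1).factorial : ℝ) = q * (q ^ j / (j.factorial : ℝ)) / (j + 1) := by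
      rw [Nat.factorial_succ]
      push_cast
      field_simp
      ring
    rw [h5, div_le_iff₀ h3]
    linarith

lemma ee_le (F : Finset ℕ) (x : ℝ) (hx0 : 0 ≤ x) (j : ℕ) :
    ee F x j ≤ (pp F x) ^ j / (j.factorial : ℝ) := by
  induction j with
  | zero => simp [ee_zero]
  | succ j ih =>
    have h2 := ee_succ_le F x hx0 j
    have h3 : 0 < (j : ℝ) + 1 := by positivity
    have h5 : (pp F x) ^ (j + 1) / ((j + 1).factorial : ℝ) =
        pp F x * ((pp F x) ^ j / (j.factorial : ℝ)) / (j + 1) := by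
      rw [Nat.factorial_succ]
      push_cast
      field_simp
      ring
    rw [h5, le_div_iff₀ h3]
    have h6 := mul_le_mul_of_nonneg_left ih (pp_nonneg F x)
    linarith

lemma ee_le_pow (F : Finset ℕ) (x : ℝ) (hx0 : 0 ≤ x) (j : ℕ) :
    ee F x j ≤ (pp F x) ^ j := by
  refine (ee_le F x hx0 j).trans ?_
  have h1 : (1 : ℝ) ≤ (j.factorial : ℝ) := by exact_mod_cast Nat.one_le_iff_ne_zero.2 (Nat.factorial_ne_zero j)
  exact div_le_self (pow_nonneg (pp_nonneg F x) _) h1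

lemma pp_sdiff_ge (F X : Finset ℕ) (x : ℝ) (hx0 : 0 ≤ x) (hx1 : x ≤ 1) :
    pp F x - X.card ≤ pp (F \ X) x := by
  unfold pp
  have h1 : ∑ a ∈ F, x ^ (2 * a) ≤ ∑ a ∈ F \ X, x ^ (2 * a) + ∑ a ∈ X, x ^ (2 * a) := by
    rw [← Finset.sum_union (Finset.sdiff_disjoint)]
    apply Finset.sum_le_sum_of_subset_of_nonneg
    · intro a ha
      rw [Finset.mem_union, Finset.mem_sdiff]
      by_cases h : a ∈ X
      · exact Or.inr h
      · exact Or.inl ⟨ha, h⟩
    · intro a _ _
      positivity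
  have h2 : ∑ a ∈ X, x ^ (2 * a) ≤ X.card := by
    calc ∑ a ∈ X, x ^ (2 * a) ≤ ∑ a ∈ X, (1 : ℝ) := by
          apply Finset.sum_le_sum
          intro a _
          exact pow_le_one₀ hx0 hx1
      _ = X.card := by simp
  linarith

lemma EE_zero (F : Finset ℕ) (x : ℝ) : EE F x 0 = 1 := by
  unfold EE
  have : msets F 0 = {0} := by
    ext m
    rw [mem_msets, Finset.mem_singleton]
    constructor
    · rintro ⟨h, _⟩
      exact Multiset.card_eq_zero.1 h
    · rintro rfl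
      simp
  rw [this]
  simp

lemma EE_nonneg (F : Finset ℕ) (x : ℝ) (j : ℕ) : 0 ≤ EE F x j := by
  unfold EE
  exact Finset.sum_nonneg fun a _ => by rw [pow_mul]; positivity

lemma EE_ge (F : Finset ℕ) (x : ℝ) (hx0 : 0 ≤ x) (j : ℕ) :
    (pp F x) ^ j / (j.factorial : ℝ) ≤ EE F x j := by
  induction j with
  | zero => simp [EE_zero]
  | succ j ih =>
    have h2 := pp_mul_EE_le F x hx0 j
    have h3 : 0 < (j : ℝ) + 1 := by positivity
    have h5 : (pp F x) ^ (j + 1) / ((j + 1).factorial : ℝ) =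
        pp F x * ((pp F x) ^ j / (j.factorial : ℝ)) / (j + 1) := by
      rw [Nat.factorial_succ]
      push_cast
      field_simp
      ring
    rw [h5, div_le_iff₀ h3]
    have h6 := mul_le_mul_of_nonneg_left ih (pp_nonneg F x)
    linarith

end Pool.Agent.TH854.BV
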