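import Pool.Agent.H396R2.Energy
import Pool.Agent.H396R2.Main

set_option autoImplicit false

open Finset

namespace Pool.Agent.TH854.BV

open Pool.Agent.H396R2

section

variable {G : Type*} [AddCommGroup G] [Fintype G]

/-- windows -/
def win (L : ℕ) (γ : ℕ → G) (u : G → ℝ) (k : G) : ℝ := ∑ i ∈ range L, u (k + γ i)

lemma win_nonneg (L : ℕ) (γ : ℕ → G) (u : G → ℝ) (hu : ∀ k, 0 ≤ u k) (k : G) :
    0 ≤ win L γ u k := Finset.sum_nonneg fun _ _ => hu _

lemma win_mono (L : ℕ) (γ : ℕ → G) (u v : G → ℝ) (h : ∀ k, u k ≤ v k) (k : G) :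
    win L γ u k ≤ win L γ v k := Finset.sum_le_sum fun _ _ => h _

/-- lower bound for the high frequency energy of `s ≥ t ≥ 0` -/
lemma energy_two (L : ℕ) (γ : ℕ → G) (t s : G → ℝ) (ht : ∀ k, 0 ≤ t k) (hs : ∀ k, t k ≤ s k)
    (θ : ℝ) (hθ : 0 < θ) :
    (L : ℝ) ^ 2 * ∑ k, (t k) ^ 2 - θ⁻¹ * ∑ k, (win L γ t k) ^ 2 - θ * ∑ k, (win L γ s k) ^ 2
      ≤ (L : ℝ) ^ 2 * ∑ k, (s k) ^ 2 - ∑ k, (win L γ s k) ^ 2 := by
  set u : G → ℝ := fun k => s k - t k with hu
  have hu0 : ∀ k, 0 ≤ u k := fun k => sub_nonneg.2 (hs k)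
  have h5 := win_sq_le L γ u
  have h6 : ∑ k, (t k) ^ 2 + ∑ k, (u k) ^ 2 ≤ ∑ k, (s k) ^ 2 := by
    rw [← Finset.sum_add_distrib]
    apply Finset.sum_le_sum
    intro k _
    have e : s k = t k + u k := by simp [hu]
    rw [e]
    nlinarith [mul_nonneg (ht k) (hu0 k)]
  have h4 : ∑ k, (win L γ s k) ^ 2 ≤ θ⁻¹ * ∑ k, (win L γ t k) ^ 2 + θ * ∑ k, (win L γ s k) ^ 2
      + ∑ k, (win L γ u k) ^ 2 := by
    rw [Finset.mul_sum, Finset.mul_sum, ← Finset.sum_add_distrib, ← Finset.sum_add_distrib]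
    apply Finset.sum_le_sum
    intro k _
    have e : win L γ s k = win L γ t k + win L γ u k := by
      unfold win
      rw [← Finset.sum_add_distrib]
      exact Finset.sum_congr rfl fun i _ => by simp [hu]
    have a1 := win_nonneg L γ t ht k
    have a2 := win_nonneg L γ u hu0 k
    set a := win L γ t k
    set b := win L γ u k
    rw [e]
    have h7 : 2 * (a * (a + b)) ≤ θ⁻¹ * a ^ 2 + θ * (a + b) ^ 2 := by
      have h8 : 0 ≤ θ⁻¹ * (a - θ * (a + b)) ^ 2 := by positivity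
      have h9 : θ⁻¹ * (a - θ * (a + b)) ^ 2 = θ⁻¹ * a ^ 2 - 2 * (a * (a + b)) + θ * (a + b) ^ 2 := by
        field_simp
        ring
      linarith
    nlinarith
  have h7 : (0 : ℝ) ≤ (L : ℝ) ^ 2 := by positivity
  have h8 := mul_le_mul_of_nonneg_left h6 h7
  rw [mul_add] at h8
  have h9 : ∑ k, (win L γ u k) ^ 2 ≤ (L : ℝ) ^ 2 * ∑ k, (u k) ^ 2 := h5
  linarith

end

section

variable {Ω : Type*} [DecidableEq Ω] (P : Finset Ω) (ν : Ω → ℕ) (x : ℝ) (B : ℕ) [NeZero B]

/-- the density of the numbers `ν ω` with weight `x ^ ν ω` -/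
noncomputable def RR : ZMod B → ℝ := push P (fun ω => (ν ω : ZMod B)) (fun ω => x ^ ν ω)

/-- number of `ω` with `ν ω = n` -/
def cnt (n : ℕ) : ℕ := (P.filter (fun ω => ν ω = n)).card

variable {P ν x B}

/-- upper bound for the low frequency energy -/
lemma win_RR_le {L : ℕ} (hx0 : 0 < x) (hx1 : x ≤ 1) (hxL : 1 / 2 ≤ x ^ L)
    (hB : ∀ ω ∈ P, ν ω + L < B) (W : ℝ)
    (hW : ∀ y i, ((P.filter (fun ω => y ≤ ν ω + i ∧ ν ω + i < y + L)).card : ℝ) ≤ W) :
    ∑ k, (win L (fun i => (i : ZMod B)) (RR P ν x B) k) ^ 2 ≤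
      2 * L * W * ∑ ω ∈ P, x ^ (2 * ν ω) := by
  have hW0 : 0 ≤ W := le_trans (Nat.cast_nonneg _) (hW 0 0)
  have e1 : ∑ k, (win L (fun i => (i : ZMod B)) (RR P ν x B) k) ^ 2
      = ∑ i ∈ range L, ∑ i' ∈ range L, ∑ ω ∈ P, ∑ ω' ∈ P,
        if (ν ω' : ZMod B) = (ν ω : ZMod B) + ((i' : ZMod B) - (i : ZMod B)) then
          x ^ ν ω * x ^ ν ω' else 0 := by
    unfold win
    rw [win_corr L (fun i => (i : ZMod B))]
    refine Finset.sum_congr rfl fun i _ => Finset.sum_congr rfl fun i' _ => ?_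
    unfold RR
    rw [corr_push]
  rw [e1]
  have e2 : ∀ i ∈ range L, ∑ i' ∈ range L, ∑ ω ∈ P, ∑ ω' ∈ P,
        (if (ν ω' : ZMod B) = (ν ω : ZMod B) + ((i' : ZMod B) - (i : ZMod B)) then
          x ^ ν ω * x ^ ν ω' else 0) ≤ 2 * W * ∑ ω ∈ P, x ^ (2 * ν ω) := by
    intro i hi
    rw [Finset.mem_range] at hi
    rw [Finset.sum_comm, Finset.mul_sum]
    apply Finset.sum_le_sum
    intro ω hω
    rw [Finset.sum_comm]
    have e3 : ∀ ω' ∈ P, ∑ i' ∈ range L,
        (if (ν ω' : ZMod B) = (ν ω : ZMod B) + ((i' : ZMod B) - (i : ZMod B)) then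
          x ^ ν ω * x ^ ν ω' else 0) ≤
        if ν ω ≤ ν ω' + i ∧ ν ω' + i < ν ω + L then 2 * x ^ (2 * ν ω) else 0 := by
      intro ω' hω'
      have h1 : ∀ i' ∈ range L,
          ((ν ω' : ZMod B) = (ν ω : ZMod B) + ((i' : ZMod B) - (i : ZMod B)) ↔
            i' = ν ω' + i - ν ω ∧ ν ω ≤ ν ω' + i ∧ ν ω' + i < ν ω + L) := by
        intro i' hi'
        rw [Finset.mem_range] at hi'
        have a1 := hB ω hω
        have a2 := hB ω' hω'
        have h2 : ((ν ω' : ZMod B) = (ν ω : ZMod B) + ((i' : ZMod B) - (i : ZMod B))) ↔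
            (((ν ω' + i : ℕ) : ZMod B) = ((ν ω + i' : ℕ) : ZMod B)) := by
          push_cast
          constructor
          · intro h; rw [h]; ring
          · intro h
            have : (ν ω' : ZMod B) = (ν ω' : ZMod B) + i - i := by ring
            rw [this, h]; ring
        rw [h2, natCast_inj_of_lt (by omega) (by omega)]
        omega
      rw [Finset.sum_congr rfl (g := fun i' => if i' = ν ω' + i - ν ω ∧ ν ω ≤ ν ω' + i ∧
        ν ω' + i < ν ω + L then x ^ ν ω * x ^ ν ω' else 0)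
        (fun i' hi' => by simp only [h1 i' hi'])]
      by_cases hc : ν ω ≤ ν ω' + i ∧ ν ω' + i < ν ω + L
      · simp only [hc, and_true, if_true]
        rw [Finset.sum_ite_eq']
        split_ifs
        · have h3 : x ^ ν ω' * x ^ L ≤ x ^ ν ω := by
            rw [← pow_add]
            exact pow_le_pow_of_le_one hx0.le hx1 (by omega)
          have h4 : x ^ ν ω' ≤ 2 * x ^ ν ω := by
            have h5 : 0 ≤ x ^ ν ω' := by positivity
            nlinarith
          calc x ^ ν ω * x ^ ν ω' ≤ x ^ ν ω * (2 * x ^ ν ω) :=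
                mul_le_mul_of_nonneg_left h4 (by positivity)
            _ = 2 * x ^ (2 * ν ω) := by rw [two_mul (ν ω), pow_add]; ring
        · positivity
      · simp only [hc, and_false, if_false]
        simp
    refine (Finset.sum_le_sum e3).trans ?_
    rw [← Finset.sum_filter, Finset.sum_const, nsmul_eq_mul]
    have h6 := hW (ν ω) i
    have h7 : (0 : ℝ) ≤ 2 * x ^ (2 * ν ω) := by positivity
    calc ((P.filter (fun ω' => ν ω ≤ ν ω' + i ∧ ν ω' + i < ν ω + L)).card : ℝ) * (2 * x ^ (2 * ν ω))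
        ≤ W * (2 * x ^ (2 * ν ω)) := mul_le_mul_of_nonneg_right h6 h7
      _ = 2 * W * x ^ (2 * ν ω) := by ring
  refine (Finset.sum_le_sum e2).trans (le_of_eq ?_)
  rw [Finset.sum_const, card_range, nsmul_eq_mul]
  ring

/-- lower bound for the low frequency energy -/
lemma win_RR_ge {L : ℕ} (hx0 : 0 < x) (hx1 : x < 1)
    (hB : ∀ ω ∈ P, ν ω + L < B) (CR : ℝ) (hCR : ∀ n, (cnt P ν n : ℝ) ≤ CR)
    (hY : L * CR ≤ ∑ ω ∈ P, x ^ (2 * ν ω)) :
    (L : ℝ) ^ 2 * ((1 - x ^ 2) * (∑ ω ∈ P, x ^ (2 * ν ω) - L * CR) ^ 2) ≤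
      ∑ k, (win L (fun i => (i : ZMod B)) (RR P ν x B) k) ^ 2 := by
  set Y := ∑ ω ∈ P, x ^ (2 * ν ω) with hYdef
  have hCR0 : 0 ≤ CR := le_trans (Nat.cast_nonneg _) (hCR 0)
  set v : ZMod B → ℝ := fun κ => x ^ κ.val with hv
  have h1 : (L : ℝ) * (Y - L * CR) ≤
      ∑ k, v k * win L (fun i => (i : ZMod B)) (RR P ν x B) k := by
    have e1 : ∑ k, v k * win L (fun i => (i : ZMod B)) (RR P ν x B) k
        = ∑ i ∈ range L, ∑ ω ∈ P, x ^ ν ω * v ((ν ω : ZMod B) - (i : ZMod B)) := by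
      unfold win
      simp_rw [Finset.mul_sum]
      rw [Finset.sum_comm]
      refine Finset.sum_congr rfl fun i _ => ?_
      rw [← sum_push_mul P (fun ω => (ν ω : ZMod B)) (fun ω => x ^ ν ω)
        (fun κ => v (κ - (i : ZMod B)))]
      rw [← sum_shift (fun k => push P (fun ω => (ν ω : ZMod B)) (fun ω => x ^ ν ω) k *
        v (k - (i : ZMod B))) (i : ZMod B)]
      refine Finset.sum_congr rfl fun k _ => ?_
      rw [add_sub_cancel_right]
      unfold RR
      ring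
    rw [e1]
    have e2 : ∀ i ∈ range L, Y - L * CR ≤ ∑ ω ∈ P, x ^ ν ω * v ((ν ω : ZMod B) - (i : ZMod B)) := by
      intro i hi
      rw [Finset.mem_range] at hi
      have h2 : ∑ ω ∈ P, (if ν ω < i then 0 else x ^ (2 * ν ω)) ≤
          ∑ ω ∈ P, x ^ ν ω * v ((ν ω : ZMod B) - (i : ZMod B)) := by
        apply Finset.sum_le_sum
        intro ω hω
        split_ifs with hc
        · positivity
        · have h3 : (ν ω : ZMod B) - (i : ZMod B) = ((ν ω - i : ℕ) : ZMod B) := by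
            rw [Nat.cast_sub (by omega)]
          rw [h3, hv]
          simp only
          have a1 := hB ω hω
          rw [ZMod.val_natCast, Nat.mod_eq_of_lt (by omega), two_mul, pow_add]
          apply mul_le_mul_of_nonneg_left _ (by positivity)
          exact pow_le_pow_of_le_one hx0.le hx1.le (by omega)
      refine le_trans ?_ h2
      have h4 : Y ≤ ∑ ω ∈ P, (if ν ω < i then 0 else x ^ (2 * ν ω)) +
          ∑ ω ∈ P, (if ν ω < i then 1 else 0) := by
        rw [hYdef, ← Finset.sum_add_distrib]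
        apply Finset.sum_le_sum
        intro ω _
        split_ifs
        · rw [zero_add]; exact pow_le_one₀ hx0.le hx1.le
        · rw [add_zero]
      have h5 : (∑ ω ∈ P, (if ν ω < i then 1 else 0) : ℝ) ≤ L * CR := by
        rw [← Finset.sum_filter, Finset.sum_const, nsmul_eq_mul, mul_one]
        have h6 : (P.filter (fun ω => ν ω < i)).card = ∑ n ∈ range i, cnt P ν n := by
          unfold cnt
          rw [Finset.card_eq_sum_card_fiberwise (f := ν) (t := range i)]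
          · refine Finset.sum_congr rfl fun n hn => ?_
            rw [Finset.mem_range] at hn
            congr 1
            ext ω
            simp only [Finset.mem_filter]
            constructor
            · rintro ⟨⟨a, _⟩, b⟩; exact ⟨a, b⟩
            · rintro ⟨a, b⟩; exact ⟨⟨a, by omega⟩, b⟩
          · intro ω hω
            rw [Finset.mem_coe, Finset.mem_filter] at hω
            rw [Finset.mem_coe, Finset.mem_range]
            exact hω.2
        rw [h6]
        push_cast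
        calc ∑ n ∈ range i, (cnt P ν n : ℝ) ≤ ∑ n ∈ range i, CR := Finset.sum_le_sum fun n _ => hCR n
          _ = i * CR := by rw [Finset.sum_const, card_range, nsmul_eq_mul]
          _ ≤ L * CR := mul_le_mul_of_nonneg_right (by exact_mod_cast hi.le) hCR0
      linarith
    calc (L : ℝ) * (Y - L * CR) = ∑ i ∈ range L, (Y - L * CR) := by
          rw [Finset.sum_const, card_range, nsmul_eq_mul]
      _ ≤ _ := Finset.sum_le_sum e2
  have h2 : (∑ k, v k * win L (fun i => (i : ZMod B)) (RR P ν x B) k) ^ 2 ≤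
      (∑ k, (v k) ^ 2) * ∑ k, (win L (fun i => (i : ZMod B)) (RR P ν x B) k) ^ 2 :=
    Finset.sum_mul_sq_le_sq_mul_sq _ _ _
  have hx2 : 0 < 1 - x ^ 2 := by nlinarith
  have h3 : ∑ k, (v k) ^ 2 ≤ (1 - x ^ 2)⁻¹ := by
    have h4 : ∑ k, (v k) ^ 2 = ∑ n ∈ range B, x ^ (2 * n) := by
      rw [← Fin.sum_univ_eq_sum_range (fun n => x ^ (2 * n)) B]
      obtain ⟨b, rfl⟩ : ∃ b, B = b + 1 := ⟨B - 1, by have := NeZero.ne B; omega⟩
      refine Finset.sum_congr rfl fun k _ => ?_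
      rw [hv]
      simp only
      rw [← pow_mul, mul_comm]
      rfl
    rw [h4]
    exact geom_le x hx0 hx1 B
  have h0 : 0 ≤ ∑ k, (win L (fun i => (i : ZMod B)) (RR P ν x B) k) ^ 2 :=
    Finset.sum_nonneg fun _ _ => sq_nonneg _
  have h4 : ((L : ℝ) * (Y - L * CR)) ^ 2 ≤
      (1 - x ^ 2)⁻¹ * ∑ k, (win L (fun i => (i : ZMod B)) (RR P ν x B) k) ^ 2 := by
    refine le_trans (pow_le_pow_left₀ ?_ h1 2) (h2.trans (mul_le_mul_of_nonneg_right h3 h0))
    exact mul_nonneg (Nat.cast_nonneg _) (by linarith)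
  have h5 := mul_le_mul_of_nonneg_left h4 hx2.le
  rw [← mul_assoc, mul_inv_cancel₀ hx2.ne', one_mul] at h5
  calc (L : ℝ) ^ 2 * ((1 - x ^ 2) * (Y - L * CR) ^ 2)
      = (1 - x ^ 2) * ((L : ℝ) * (Y - L * CR)) ^ 2 := by ring
    _ ≤ _ := h5

/-- the energy in terms of the counting function -/
lemma sum_RR_sq {N : ℕ} (hN : ∀ ω ∈ P, ν ω < N) (hNB : N ≤ B) :
    ∑ k, (RR P ν x B k) ^ 2 = ∑ n ∈ range N, x ^ (2 * n) * (cnt P ν n : ℝ) ^ 2 := by
  have h1 : ∑ k, (RR P ν x B k) ^ 2 = ∑ ω ∈ P, x ^ ν ω * RR P ν x B (ν ω : ZMod B) := by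
    unfold RR
    rw [← sum_push_mul]
    exact Finset.sum_congr rfl fun k _ => by ring
  rw [h1]
  have h2 : ∀ ω ∈ P, RR P ν x B (ν ω : ZMod B) = x ^ ν ω * (cnt P ν (ν ω) : ℝ) := by
    intro ω hω
    unfold RR push cnt
    have h3 : ∀ ω' ∈ P, (if ((ν ω' : ZMod B) = (ν ω : ZMod B)) then x ^ ν ω' else 0)
        = if ν ω' = ν ω then x ^ ν ω else 0 := by
      intro ω' hω'
      have a1 := hN ω hω
      have a2 := hN ω' hω'
      have a3 : ((ν ω' : ZMod B) = (ν ω : ZMod B)) ↔ ν ω' = ν ω :=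
        natCast_inj_of_lt (by omega) (by omega)
      by_cases h : ν ω' = ν ω
      · rw [if_pos (a3.2 h), if_pos h, h]
      · rw [if_neg (fun c => h (a3.1 c)), if_neg h]
    rw [Finset.sum_congr rfl h3, ← Finset.sum_filter, Finset.sum_const, nsmul_eq_mul]
    ring
  rw [Finset.sum_congr rfl (fun ω hω => by rw [h2 ω hω])]
  rw [← Finset.sum_fiberwise_of_maps_to (s := P) (g := ν) (t := range N)
    (fun ω hω => Finset.mem_range.2 (hN ω hω))]
  refine Finset.sum_congr rfl fun n _ => ?_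
  rw [Finset.sum_congr rfl (g := fun _ => x ^ (2 * n) * (cnt P ν n : ℝ))]
  · rw [Finset.sum_const, nsmul_eq_mul]
    unfold cnt
    ring
  · intro ω hω
    rw [Finset.mem_filter] at hω
    rw [hω.2, two_mul, pow_add]
    ring

end

end Pool.Agent.TH854.BV
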