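import Pool.Agent.TH854.BV.Inf

set_option autoImplicit false

open Finset Filter Topology

namespace Pool.Agent.TH854.BV

open Pool.Agent.H396R2

/-- Abel summation -/
lemma pp_abel (A : Set ℕ) (T : ℕ) (x : ℝ) (hx0 : 0 ≤ x) (hx1 : x < 1) :
    (1 - x ^ 2) * ∑ n ∈ range (T + 1), (x ^ 2) ^ n * ((FT A n).card : ℝ) ≤ pp (FT A T) x := by
  classical
  set q := x ^ 2 with hq
  have h1 : ∀ n ∈ range (T + 1), q ^ n * ((FT A n).card : ℝ) =
      ∑ a ∈ FT A T, if a ≤ n then q ^ n else 0 := by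
    intro n hn
    rw [Finset.mem_range] at hn
    rw [← Finset.sum_filter, Finset.sum_const, nsmul_eq_mul, mul_comm]
    have : (FT A T).filter (fun a => a ≤ n) = FT A n := by
      ext a
      rw [Finset.mem_filter, mem_FT, mem_FT]
      constructor
      · rintro ⟨⟨a1, _⟩, a3⟩; exact ⟨a1, a3⟩
      · rintro ⟨a1, a3⟩; exact ⟨⟨a1, by omega⟩, a3⟩
    rw [this]
  rw [Finset.sum_congr rfl h1, Finset.sum_comm, Finset.mul_sum]
  unfold pp
  apply Finset.sum_le_sum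
  intro a ha
  rw [mem_FT] at ha
  have h2 : ∑ n ∈ range (T + 1), (if a ≤ n then q ^ n else 0) = ∑ n ∈ Ico a (T + 1), q ^ n := by
    rw [← Finset.sum_filter]
    apply Finset.sum_congr _ (fun _ _ => rfl)
    ext n
    rw [Finset.mem_filter, Finset.mem_range, Finset.mem_Ico]
    tauto
  have h3 := geom_sum_Ico_mul q (show a ≤ T + 1 by omega)
  have hqn : 0 ≤ q ^ (T + 1) := by rw [hq]; positivity
  rw [h2]
  calc (1 - q) * ∑ n ∈ Ico a (T + 1), q ^ n = - ((∑ n ∈ Ico a (T + 1), q ^ n) * (q - 1)) := by ring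
    _ = q ^ a - q ^ (T + 1) := by rw [h3]; ring
    _ ≤ q ^ a := by linarith
    _ = x ^ (2 * a) := by rw [hq, ← pow_mul]

lemma int_step (s b : ℝ) (hs : 0 ≤ s) (hb : 0 ≤ b) (n : ℕ) :
    ∫ t in (n : ℝ)..((n : ℝ) + 1), t ^ s * Real.exp (-(b * t)) ≤
      Real.exp b * (((n : ℝ) + 1) ^ s * Real.exp (-(b * ((n : ℝ) + 1)))) := by
  have hc : Continuous (fun t : ℝ => t ^ s * Real.exp (-(b * t))) := by
    apply Continuous.mul
    · exact Real.continuous_rpow_const hs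
    · fun_prop
  have h1 : ∫ t in (n : ℝ)..((n : ℝ) + 1), t ^ s * Real.exp (-(b * t)) ≤
      ∫ _t in (n : ℝ)..((n : ℝ) + 1), Real.exp b * (((n : ℝ) + 1) ^ s *
        Real.exp (-(b * ((n : ℝ) + 1)))) := by
    apply intervalIntegral.integral_mono_on (by linarith) (hc.intervalIntegrable _ _)
      (continuous_const.intervalIntegrable _ _)
    intro t ht
    have hn : (0 : ℝ) ≤ n := Nat.cast_nonneg n
    have e : Real.exp b * (((n : ℝ) + 1) ^ s * Real.exp (-(b * ((n : ℝ) + 1)))) =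
        ((n : ℝ) + 1) ^ s * Real.exp (-(b * n)) := by
      rw [mul_left_comm, ← Real.exp_add]
      congr 2
      ring
    rw [e]
    apply mul_le_mul
    · exact Real.rpow_le_rpow (by linarith [ht.1]) ht.2 hs
    · apply Real.exp_le_exp.2
      nlinarith [ht.1]
    · positivity
    · positivity
  refine h1.trans (le_of_eq ?_)
  rw [intervalIntegral.integral_const]
  simp

lemma int_sum (s b : ℝ) (hs : 0 ≤ s) (hb : 0 ≤ b) (T : ℕ) :
    ∫ t in (0 : ℝ)..(T : ℝ), t ^ s * Real.exp (-(b * t)) ≤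
      Real.exp b * ∑ n ∈ range T, ((n : ℝ) + 1) ^ s * Real.exp (-(b * ((n : ℝ) + 1))) := by
  have hc : Continuous (fun t : ℝ => t ^ s * Real.exp (-(b * t))) := by
    apply Continuous.mul
    · exact Real.continuous_rpow_const hs
    · fun_prop
  induction T with
  | zero => simp
  | succ T ih =>
    rw [Finset.sum_range_succ, mul_add]
    push_cast
    rw [← intervalIntegral.integral_add_adjacent_intervals (hc.intervalIntegrable 0 (T : ℝ))
      (hc.intervalIntegrable (T : ℝ) ((T : ℝ) + 1))]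
    exact add_le_add ih (int_step s b hs hb T)

/-- lower bound for the generating function in terms of the counting function -/
lemma pp_ge_int (A : Set ℕ) (T n₁ : ℕ) (s c b x : ℝ) (hs : 0 < s) (hc : 0 ≤ c) (hb : 0 < b)
    (hx0 : 0 ≤ x) (hx1 : x < 1) (hxb : x ^ 2 = Real.exp (-b))
    (hA : ∀ n : ℕ, n₁ ≤ n → c * (n : ℝ) ^ s ≤ ((FT A n).card : ℝ)) :
    (1 - x ^ 2) * (c * (Real.exp (-b) * (∫ t in (0 : ℝ)..(T : ℝ), t ^ s * Real.exp (-(b * t))) -
      n₁ * (n₁ : ℝ) ^ s)) ≤ pp (FT A T) x := by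
  refine le_trans ?_ (pp_abel A T x hx0 hx1)
  have hx2 : 0 ≤ 1 - x ^ 2 := by nlinarith
  apply mul_le_mul_of_nonneg_left _ hx2
  have h1 : ∀ n ∈ range (T + 1), c * ((x ^ 2) ^ n * (n : ℝ) ^ s) - (if n < n₁ then c * (n₁ : ℝ) ^ s else 0) ≤
      (x ^ 2) ^ n * ((FT A n).card : ℝ) := by
    intro n _
    have hqn : 0 ≤ (x ^ 2) ^ n := by positivity
    have hqn1 : (x ^ 2) ^ n ≤ 1 := pow_le_one₀ (by positivity) (by nlinarith)
    by_cases hn : n < n₁
    · rw [if_pos hn]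
      have e1 : (n : ℝ) ^ s ≤ (n₁ : ℝ) ^ s :=
        Real.rpow_le_rpow (Nat.cast_nonneg _) (by exact_mod_cast hn.le) hs.le
      have e0 : 0 ≤ (n : ℝ) ^ s := by positivity
      have e2 : (x ^ 2) ^ n * (n : ℝ) ^ s ≤ 1 * (n₁ : ℝ) ^ s :=
        mul_le_mul hqn1 e1 e0 zero_le_one
      have e3 : c * ((x ^ 2) ^ n * (n : ℝ) ^ s) ≤ c * (1 * (n₁ : ℝ) ^ s) :=
        mul_le_mul_of_nonneg_left e2 hc
      have e4 : 0 ≤ (x ^ 2) ^ n * ((FT A n).card : ℝ) := by positivity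
      linarith
    · rw [if_neg hn, sub_zero]
      have := mul_le_mul_of_nonneg_left (hA n (by omega)) hqn
      linarith
  refine le_trans ?_ (Finset.sum_le_sum h1)
  rw [Finset.sum_sub_distrib, ← Finset.mul_sum, mul_sub]
  have h2 : ∑ n ∈ range (T + 1), (if n < n₁ then c * (n₁ : ℝ) ^ s else 0) ≤
      c * (n₁ * (n₁ : ℝ) ^ s) := by
    rw [← Finset.sum_filter, Finset.sum_const, nsmul_eq_mul]
    have : ((range (T + 1)).filter (fun n => n < n₁)).card ≤ n₁ := by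
      calc _ ≤ (range n₁).card := by
            apply Finset.card_le_card
            intro n hn
            rw [Finset.mem_filter] at hn
            exact Finset.mem_range.2 hn.2
        _ = n₁ := card_range _
    calc _ ≤ (n₁ : ℝ) * (c * (n₁ : ℝ) ^ s) :=
          mul_le_mul_of_nonneg_right (by exact_mod_cast this) (by positivity)
      _ = _ := by ring
  have h3 : Real.exp (-b) * (∫ t in (0 : ℝ)..(T : ℝ), t ^ s * Real.exp (-(b * t))) ≤
      ∑ n ∈ range (T + 1), (x ^ 2) ^ n * (n : ℝ) ^ s := by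
    have h4 := mul_le_mul_of_nonneg_left (int_sum s b hs.le hb.le T) (Real.exp_pos (-b)).le
    rw [← mul_assoc, ← Real.exp_add, neg_add_cancel, Real.exp_zero, one_mul] at h4
    refine h4.trans ?_
    rw [Finset.sum_range_succ']
    have h5 : (0 : ℝ) ≤ (x ^ 2) ^ 0 * ((0 : ℕ) : ℝ) ^ s := by positivity
    have h6 : ∑ n ∈ range T, ((n : ℝ) + 1) ^ s * Real.exp (-(b * ((n : ℝ) + 1))) =
        ∑ n ∈ range T, (x ^ 2) ^ (n + 1) * ((n + 1 : ℕ) : ℝ) ^ s := by
      apply Finset.sum_congr rfl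
      intro n _
      rw [hxb, ← Real.exp_nat_mul]
      push_cast
      rw [mul_comm]
      congr 2
      ring
    rw [h6]
    linarith
  have h4 := mul_le_mul_of_nonneg_left h3 hc
  linarith

/-- the limit of the previous bound -/
lemma M1_ge (A : Set ℕ) (h K0 n₁ : ℕ) (hK : ∀ n, rep A h n ≤ K0)
    (s c b x : ℝ) (hs : 0 < s) (hc : 0 ≤ c) (hb : 0 < b)
    (hx0 : 0 < x) (hx1 : x < 1) (hxb : x ^ 2 = Real.exp (-b))
    (hA : ∀ n : ℕ, n₁ ≤ n → c * (n : ℝ) ^ s ≤ ((FT A n).card : ℝ)) :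
    (1 - x ^ 2) * (max ((1 - x ^ 2) * (c * (Real.exp (-b) * ((1 / b) ^ (s + 1) * Real.Gamma (s + 1)) -
      n₁ * (n₁ : ℝ) ^ s))) 0) ^ h ≤ (h.factorial : ℝ) * M1 A h (x ^ 2) := by
  have hint : MeasureTheory.IntegrableOn (fun t : ℝ => t ^ s * Real.exp (-(b * t))) (Set.Ioi 0) := by
    have := integrableOn_rpow_mul_exp_neg_mul_rpow (p := 1) (s := s) (b := b) (by linarith)
      one_pos hb
    refine this.congr_fun (fun t _ => ?_) measurableSet_Ioi
    simp
  have hJ : ∫ t in Set.Ioi (0 : ℝ), t ^ s * Real.exp (-(b * t)) = (1 / b) ^ (s + 1) * Real.Gamma (s + 1) := by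
    have := Real.integral_rpow_mul_exp_neg_mul_Ioi (a := s + 1) (r := b) (by linarith) hb
    rw [add_sub_cancel_right] at this
    exact this
  have ht := MeasureTheory.intervalIntegral_tendsto_integral_Ioi 0 hint
    (tendsto_natCast_atTop_atTop (R := ℝ))
  rw [hJ] at ht
  have h1 : Tendsto (fun T : ℕ => (1 - x ^ 2) * (max ((1 - x ^ 2) * (c * (Real.exp (-b) *
      (∫ t in (0 : ℝ)..(T : ℝ), t ^ s * Real.exp (-(b * t))) - n₁ * (n₁ : ℝ) ^ s))) 0) ^ h) atTop
      (𝓝 ((1 - x ^ 2) * (max ((1 - x ^ 2) * (c * (Real.exp (-b) *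
      ((1 / b) ^ (s + 1) * Real.Gamma (s + 1)) - n₁ * (n₁ : ℝ) ^ s))) 0) ^ h)) :=
    ((((((ht.const_mul _).sub_const _).const_mul _).const_mul _).max tendsto_const_nhds).pow h).const_mul _
  have h2 := (tendsto_EE A h K0 hK x hx0 hx1).const_mul (h.factorial : ℝ)
  have hx2 : 0 < 1 - x ^ 2 := by nlinarith
  refine le_of_tendsto_of_tendsto' h1 h2 fun T => ?_
  have h3 := pp_ge_int A T n₁ s c b x hs hc hb hx0.le hx1 hxb hA
  have h4 : (max ((1 - x ^ 2) * (c * (Real.exp (-b) *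
      (∫ t in (0 : ℝ)..(T : ℝ), t ^ s * Real.exp (-(b * t))) - n₁ * (n₁ : ℝ) ^ s))) 0) ^ h ≤
      (pp (FT A T) x) ^ h :=
    pow_le_pow_left₀ (le_max_right _ _) (max_le h3 (pp_nonneg _ _)) h
  have h5 := EE_ge (FT A T) x hx0.le h
  have hf : (0 : ℝ) < (h.factorial : ℝ) := by exact_mod_cast Nat.factorial_pos h
  rw [div_le_iff₀ hf] at h5
  calc _ ≤ (1 - x ^ 2) * (EE (FT A T) x h * (h.factorial : ℝ)) :=
        mul_le_mul_of_nonneg_left (h4.trans h5) hx2.le
    _ = _ := by ring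

lemma tendsto_ratio : Tendsto (fun q : ℝ => (1 - q) * (1 / (-Real.log q))) (𝓝[<] 1) (𝓝 1) := by
  have h1 : HasDerivAt Real.log 1 1 := by
    have := Real.hasDerivAt_log (one_ne_zero (α := ℝ))
    simpa using this
  rw [hasDerivAt_iff_tendsto_slope] at h1
  have h2 : Tendsto (slope Real.log 1) (𝓝[<] 1) (𝓝 1) :=
    h1.mono_left (nhdsWithin_mono _ (fun q hq => ne_of_lt hq))
  have h3 := h2.inv₀ one_ne_zero
  rw [inv_one] at h3
  refine h3.congr fun q => ?_
  rw [slope_def_field, Real.log_one, sub_zero, inv_div, one_div, inv_neg]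
  rw [div_eq_mul_inv]
  ring

/-- **Growth.** -/
theorem growth (A : Set ℕ) (hA : A.Infinite) (k m : ℕ) (hmk : m ≤ k) (hm : 1 ≤ m) (g n₀ : ℕ)
    (hg1 : 1 ≤ g) (hg : ∀ n, n₀ ≤ n → rep A (k + m) n ≤ g) (c : ℝ) (hc : 0 ≤ c) (n₁ : ℕ)
    (hAc : ∀ n : ℕ, n₁ ≤ n → c * (n : ℝ) ^ (((k + m : ℕ) : ℝ)⁻¹) ≤ ((FT A n).card : ℝ)) :
    (c * Real.Gamma (((k + m : ℕ) : ℝ)⁻¹ + 1)) ^ (k + m) ≤
      ((k + m).factorial : ℝ) * (g - 1 + 1 / ((k + m).choose m : ℝ)) := by
  obtain ⟨K0, hK⟩ := bounded_of_eventually A (k + m) g n₀ hg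
  set h := k + m with hh
  set s : ℝ := ((h : ℕ) : ℝ)⁻¹ with hs
  have hh0 : 0 < h := by omega
  have hs0 : 0 < s := by rw [hs]; positivity
  set N : ℝ := n₁ * (n₁ : ℝ) ^ s with hN
  -- the scaled lower bound
  have t1 : Tendsto (fun q : ℝ => c * (q * (((1 - q) * (1 / (-Real.log q))) ^ (s + 1) *
      Real.Gamma (s + 1)) - N * (1 - q) ^ (s + 1))) (𝓝[<] 1) (𝓝 (c * (1 * ((1 : ℝ) ^ (s + 1) *
      Real.Gamma (s + 1)) - N * (0 : ℝ) ^ (s + 1)))) := by
    have a1 : Tendsto (fun q : ℝ => q) (𝓝[<] 1) (𝓝 (1 : ℝ)) :=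
      tendsto_id.mono_left nhdsWithin_le_nhds
    have a2 : Tendsto (fun q : ℝ => 1 - q) (𝓝[<] 1) (𝓝 (0 : ℝ)) := by
      have := a1.const_sub 1
      rwa [sub_self] at this
    have a3 := tendsto_ratio.rpow_const (p := s + 1) (Or.inl one_ne_zero)
    have a4 := a2.rpow_const (p := s + 1) (Or.inr (by linarith))
    exact ((a1.mul (a3.mul_const _)).sub (a4.const_mul _)).const_mul _
  rw [Real.one_rpow, Real.zero_rpow (by linarith), mul_zero, sub_zero, one_mul, one_mul] at t1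
  have t2 := (t1.max (tendsto_const_nhds (x := (0 : ℝ)))).pow h
  have hG : 0 ≤ c * Real.Gamma (s + 1) := mul_nonneg hc (Real.Gamma_pos_of_pos (by linarith)).le
  rw [max_eq_left hG] at t2
  have key : ∀ ε : ℝ, 0 < ε → (c * Real.Gamma (s + 1)) ^ h ≤
      (h.factorial : ℝ) * (g - 1 + 1 / (h.choose m : ℝ) + ε) := by
    intro ε hε
    have h1 := mean_le A hA k m hmk hm g n₀ hg1 hg ε hε
    refine le_of_tendsto t2 ?_
    filter_upwards [h1, eventually_Ioo] with q hq hq01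
    obtain ⟨hq0, hq1⟩ := hq01
    have hlog : 0 < -Real.log q := by
      have := Real.log_neg hq0 hq1
      linarith
    have hx2 : (√q) ^ 2 = q := Real.sq_sqrt hq0.le
    have hx1 : √q < 1 := by
      rw [Real.sqrt_lt' one_pos]; simpa using hq1
    have h2 := M1_ge A h K0 n₁ hK s c (-Real.log q) (√q) hs0 hc hlog (Real.sqrt_pos.2 hq0) hx1
      (by rw [hx2, neg_neg, Real.exp_log hq0]) hAc
    rw [hx2, neg_neg, Real.exp_log hq0] at h2
    have hf : (0 : ℝ) ≤ (h.factorial : ℝ) := Nat.cast_nonneg _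
    refine le_trans ?_ (h2.trans (mul_le_mul_of_nonneg_left hq hf))
    apply le_of_eq
    have h1q : 0 ≤ 1 - q := by linarith
    have e1 : 1 - q = ((1 - q) ^ s) ^ h := by
      rw [hs, Real.rpow_inv_natCast_pow h1q (by omega)]
    have e2 : c * (q * (((1 - q) * (1 / (-Real.log q))) ^ (s + 1) *
      Real.Gamma (s + 1)) - N * (1 - q) ^ (s + 1)) = (1 - q) ^ s *
        ((1 - q) * (c * (q * ((1 / (-Real.log q)) ^ (s + 1) * Real.Gamma (s + 1)) - N))) := by
      rw [Real.mul_rpow h1q (by positivity), Real.rpow_add_one' h1q (by linarith)]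
      ring
    have e3 : ∀ V : ℝ, (max ((1 - q) ^ s * V) 0) ^ h = (1 - q) * (max V 0) ^ h := by
      intro V
      calc (max ((1 - q) ^ s * V) 0) ^ h = ((1 - q) ^ s * max V 0) ^ h := by
            rw [mul_max_of_nonneg _ _ (by positivity), mul_zero]
        _ = ((1 - q) ^ s) ^ h * (max V 0) ^ h := mul_pow _ _ _
        _ = _ := by rw [← e1]
    rw [e2, e3]
  have t3 : Tendsto (fun ε : ℝ => (h.factorial : ℝ) * (g - 1 + 1 / (h.choose m : ℝ) + ε)) (𝓝[>] 0)
      (𝓝 ((h.factorial : ℝ) * (g - 1 + 1 / (h.choose m : ℝ) + 0))) := by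
    apply Tendsto.const_mul
    apply Tendsto.const_add
    exact tendsto_id.mono_left nhdsWithin_le_nhds
  rw [add_zero] at t3
  refine ge_of_tendsto t3 ?_
  filter_upwards [self_mem_nhdsWithin] with ε hε
  exact key ε hε

end Pool.Agent.TH854.BV
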