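import Pool.Agent.TH854.BV.Lim

set_option autoImplicit false

open Finset Filter Topology

namespace Pool.Agent.TH854.BV

open Pool.Agent.H396R2

/-- Abel mean of the representation function -/
noncomputable def M1 (A : Set ℕ) (h : ℕ) (q : ℝ) : ℝ := (1 - q) * ∑' n : ℕ, q ^ n * (rep A h n : ℝ)

/-- Abel mean of the square of the representation function -/
noncomputable def M2 (A : Set ℕ) (h : ℕ) (q : ℝ) : ℝ :=
  (1 - q) * ∑' n : ℕ, q ^ n * (rep A h n : ℝ) ^ 2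

lemma rM_zero (F : Finset ℕ) (h T n : ℕ) (hT : ∀ a ∈ F, a ≤ T) (hn : h * T < n) : rM F h n = 0 := by
  unfold rM
  rw [Finset.card_eq_zero, Finset.filter_eq_empty_iff]
  intro M hM
  rw [mem_msets] at hM
  have : M.sum ≤ Multiset.card M • T := Multiset.sum_le_card_nsmul M T (fun a ha => hT a (hM.2 a ha))
  rw [smul_eq_mul, hM.1] at this
  omega

lemma tendsto_sections (A : Set ℕ) (h K0 : ℕ) (hK : ∀ n, rep A h n ≤ K0) (p : ℕ) (hp : p ≠ 0)
    (x : ℝ) (hx0 : 0 < x) (hx1 : x < 1) :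
    Tendsto (fun T : ℕ => ∑ n ∈ range (h * T + 1), x ^ (2 * n) * (rM (FT A T) h n : ℝ) ^ p) atTop
      (𝓝 (∑' n : ℕ, (x ^ 2) ^ n * (rep A h n : ℝ) ^ p)) := by
  have hx2 : x ^ 2 < 1 := by nlinarith
  have h1 : ∀ T : ℕ, ∑ n ∈ range (h * T + 1), x ^ (2 * n) * (rM (FT A T) h n : ℝ) ^ p
      = ∑' n : ℕ, (x ^ 2) ^ n * (rM (FT A T) h n : ℝ) ^ p := by
    intro T
    rw [tsum_eq_sum (s := range (h * T + 1))]
    · apply Finset.sum_congr rfl
      intro n _
      rw [pow_mul]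
    · intro n hn
      rw [Finset.mem_range, not_lt] at hn
      rw [rM_zero (FT A T) h T n (fun a ha => (mem_FT.1 ha).2) (by omega)]
      simp [hp]
  simp_rw [h1]
  apply tendsto_tsum_of_dominated_convergence (bound := fun n => (K0 : ℝ) ^ p * (x ^ 2) ^ n)
  · exact (summable_geometric_of_lt_one (by positivity) hx2).mul_left _
  · intro n
    apply tendsto_const_nhds.congr'
    filter_upwards [eventually_ge_atTop n] with T hT
    rw [rM_FT_eq A T h n hT]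
  · refine Eventually.of_forall fun T n => ?_
    rw [Real.norm_of_nonneg (by positivity), mul_comm]
    apply mul_le_mul_of_nonneg_right _ (by positivity)
    apply pow_le_pow_left₀ (Nat.cast_nonneg _)
    exact_mod_cast (rM_FT_le A T h n).trans (hK n)

lemma tendsto_EE (A : Set ℕ) (h K0 : ℕ) (hK : ∀ n, rep A h n ≤ K0)
    (x : ℝ) (hx0 : 0 < x) (hx1 : x < 1) :
    Tendsto (fun T : ℕ => (1 - x ^ 2) * EE (FT A T) x h) atTop (𝓝 (M1 A h (x ^ 2))) := by
  have h1 := tendsto_sections A h K0 hK 1 one_ne_zero x hx0 hx1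
  unfold M1
  apply Tendsto.const_mul
  simp only [pow_one] at h1
  refine h1.congr fun T => ?_
  rw [EE_eq (FT A T) x h T (fun a ha => (mem_FT.1 ha).2)]

/-- the variance law -/
theorem law (A : Set ℕ) (hA : A.Infinite) (k m : ℕ) (hmk : m ≤ k) (hm : 1 ≤ m) (K0 : ℕ)
    (hK : ∀ n, rep A (k + m) n ≤ K0) (ε : ℝ) (hε : 0 < ε) :
    ∀ᶠ q : ℝ in 𝓝[<] 1, (M1 A (k + m) q) ^ 2 + (1 - 1 / ((k + m).choose m : ℝ)) * M1 A (k + m) q - ε
      ≤ M2 A (k + m) q := by
  have h1 := fin_law A hA k m hmk hm K0 hK ε hε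
  have h2 : ∀ᶠ x : ℝ in 𝓝[<] 1, (M1 A (k + m) (x ^ 2)) ^ 2 +
      (1 - 1 / ((k + m).choose m : ℝ)) * M1 A (k + m) (x ^ 2) - ε ≤ M2 A (k + m) (x ^ 2) := by
    filter_upwards [h1, eventually_Ioo] with x hx hx01
    have t1 := tendsto_EE A (k + m) K0 hK x hx01.1 hx01.2
    have t2 : Tendsto (fun T : ℕ => (1 - x ^ 2) *
        ∑ n ∈ range ((k + m) * T + 1), x ^ (2 * n) * (rM (FT A T) (k + m) n : ℝ) ^ 2) atTop
        (𝓝 (M2 A (k + m) (x ^ 2))) :=
      (tendsto_sections A (k + m) K0 hK 2 two_ne_zero x hx01.1 hx01.2).const_mul _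
    exact le_of_tendsto_of_tendsto (((t1.pow 2).add (t1.const_mul _)).sub_const ε) t2 hx
  have h3 : Tendsto (fun q : ℝ => √q) (𝓝[<] 1) (𝓝[<] 1) := by
    rw [tendsto_nhdsWithin_iff]
    constructor
    · have := Real.continuous_sqrt.tendsto (1 : ℝ)
      rw [Real.sqrt_one] at this
      exact this.mono_left nhdsWithin_le_nhds
    · filter_upwards [self_mem_nhdsWithin] with q hq
      rw [Set.mem_Iio] at hq ⊢
      rw [Real.sqrt_lt' one_pos]
      simpa using hq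
  filter_upwards [h3.eventually h2, eventually_Ioo] with q hq hq01
  rw [Real.sq_sqrt hq01.1.le] at hq
  exact hq

lemma M1_nonneg (A : Set ℕ) (h : ℕ) (q : ℝ) (hq0 : 0 ≤ q) (hq1 : q ≤ 1) : 0 ≤ M1 A h q := by
  unfold M1
  apply mul_nonneg (by linarith)
  exact tsum_nonneg fun n => by positivity

lemma summable_rep (A : Set ℕ) (h K0 : ℕ) (hK : ∀ n, rep A h n ≤ K0) (p : ℕ) (q : ℝ) (hq0 : 0 ≤ q)
    (hq1 : q < 1) : Summable (fun n : ℕ => q ^ n * (rep A h n : ℝ) ^ p) := by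
  apply Summable.of_nonneg_of_le (f := fun n => (K0 : ℝ) ^ p * q ^ n)
  · intro n; positivity
  · intro n
    rw [mul_comm]
    apply mul_le_mul_of_nonneg_right _ (by positivity)
    apply pow_le_pow_left₀ (Nat.cast_nonneg _)
    exact_mod_cast hK n
  · exact (summable_geometric_of_lt_one hq0 hq1).mul_left _

/-- If `r ≤ g` from `n₀` on and `r ≤ K0` everywhere. -/
lemma M2_le (A : Set ℕ) (h K0 g n₀ : ℕ) (hK : ∀ n, rep A h n ≤ K0) (hg : ∀ n, n₀ ≤ n → rep A h n ≤ g)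
    (q : ℝ) (hq0 : 0 ≤ q) (hq1 : q < 1) :
    M2 A h q ≤ g * M1 A h q + (1 - q) * (n₀ * (K0 : ℝ) ^ 2) := by
  unfold M2 M1
  have h1 := summable_rep A h K0 hK 1 q hq0 hq1
  simp only [pow_one] at h1
  have h2 := summable_rep A h K0 hK 2 q hq0 hq1
  have h3 : Summable (fun n : ℕ => if n < n₀ then (K0 : ℝ) ^ 2 else 0) := by
    apply summable_of_ne_finset_zero (s := range n₀)
    intro n hn
    rw [Finset.mem_range] at hn
    rw [if_neg hn]
  have h4 : ∑' n : ℕ, (if n < n₀ then (K0 : ℝ) ^ 2 else 0) = n₀ * (K0 : ℝ) ^ 2 := by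
    rw [tsum_eq_sum (s := range n₀)]
    · rw [Finset.sum_congr rfl (g := fun _ => (K0 : ℝ) ^ 2)]
      · rw [Finset.sum_const, card_range, nsmul_eq_mul]
      · intro n hn
        rw [Finset.mem_range] at hn
        rw [if_pos hn]
    · intro n hn
      rw [Finset.mem_range] at hn
      rw [if_neg hn]
  have h5 : ∑' n : ℕ, q ^ n * (rep A h n : ℝ) ^ 2 ≤
      ∑' n : ℕ, ((g : ℝ) * (q ^ n * (rep A h n : ℝ)) + if n < n₀ then (K0 : ℝ) ^ 2 else 0) := by
    apply Summable.tsum_le_tsum _ h2 ((h1.mul_left _).add h3)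
    intro n
    by_cases hn : n < n₀
    · rw [if_pos hn]
      have e1 : q ^ n * (rep A h n : ℝ) ^ 2 ≤ 1 * (K0 : ℝ) ^ 2 := by
        apply mul_le_mul (pow_le_one₀ hq0 hq1.le) _ (by positivity) zero_le_one
        apply pow_le_pow_left₀ (Nat.cast_nonneg _)
        exact_mod_cast hK n
      have e2 : 0 ≤ (g : ℝ) * (q ^ n * (rep A h n : ℝ)) := by positivity
      linarith
    · rw [if_neg hn, add_zero]
      have e1 : (rep A h n : ℝ) ≤ g := by exact_mod_cast hg n (by omega)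
      have e2 : 0 ≤ q ^ n * (rep A h n : ℝ) := by positivity
      calc q ^ n * (rep A h n : ℝ) ^ 2 = (rep A h n : ℝ) * (q ^ n * (rep A h n : ℝ)) := by ring
        _ ≤ _ := mul_le_mul_of_nonneg_right e1 e2
  rw [Summable.tsum_add (h1.mul_left _) h3, h4, tsum_mul_left] at h5
  calc (1 - q) * ∑' n : ℕ, q ^ n * (rep A h n : ℝ) ^ 2
      ≤ (1 - q) * (g * ∑' n : ℕ, q ^ n * (rep A h n : ℝ) + n₀ * (K0 : ℝ) ^ 2) :=
        mul_le_mul_of_nonneg_left h5 (by linarith)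
    _ = _ := by ring

lemma bounded_of_eventually (A : Set ℕ) (h g n₀ : ℕ) (hg : ∀ n, n₀ ≤ n → rep A h n ≤ g) :
    ∃ K0, ∀ n, rep A h n ≤ K0 := by
  refine ⟨g + ∑ n ∈ range n₀, rep A h n, fun n => ?_⟩
  by_cases hn : n < n₀
  · have := Finset.single_le_sum (f := fun n => rep A h n) (s := range n₀) (fun _ _ => Nat.zero_le _)
      (Finset.mem_range.2 hn)
    omega
  · have := hg n (by omega)
    omega

/-- the mean of a bounded representation function -/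
theorem mean_le (A : Set ℕ) (hA : A.Infinite) (k m : ℕ) (hmk : m ≤ k) (hm : 1 ≤ m) (g n₀ : ℕ)
    (hg1 : 1 ≤ g) (hg : ∀ n, n₀ ≤ n → rep A (k + m) n ≤ g) (ε : ℝ) (hε : 0 < ε) :
    ∀ᶠ q : ℝ in 𝓝[<] 1, M1 A (k + m) q ≤ g - 1 + 1 / ((k + m).choose m : ℝ) + ε := by
  obtain ⟨K0, hK⟩ := bounded_of_eventually A (k + m) g n₀ hg
  have h1 := law A hA k m hmk hm K0 hK (ε ^ 2 / 3) (by positivity)
  have h2 : ∀ᶠ q : ℝ in 𝓝[<] 1, (1 - q) * (n₀ * (K0 : ℝ) ^ 2) ≤ ε ^ 2 / 3 := by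
    have t : Tendsto (fun q : ℝ => (1 - q) * (n₀ * (K0 : ℝ) ^ 2)) (𝓝[<] 1) (𝓝 0) := by
      have : Tendsto (fun q : ℝ => (1 - q) * (n₀ * (K0 : ℝ) ^ 2)) (𝓝 1)
          (𝓝 ((1 - 1) * (n₀ * (K0 : ℝ) ^ 2))) :=
        ((continuous_const.sub continuous_id).mul continuous_const).tendsto (1 : ℝ)
      rw [sub_self, zero_mul] at this
      exact this.mono_left nhdsWithin_le_nhds
    exact (t.eventually (gt_mem_nhds (by positivity))).mono fun x hx => hx.le
  filter_upwards [h1, h2, eventually_Ioo] with q hq1 hq2 hq01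
  have h3 := M2_le A (k + m) K0 g n₀ hK hg q hq01.1.le hq01.2
  have h4 := M1_nonneg A (k + m) q hq01.1.le hq01.2.le
  set lam := M1 A (k + m) q
  set c := 1 / ((k + m).choose m : ℝ) with hc
  have hc0 : 0 ≤ c := by rw [hc]; positivity
  have hg1' : (1 : ℝ) ≤ g := by exact_mod_cast hg1
  by_contra hcon
  rw [not_le] at hcon
  have h5 : lam * (lam - (g - 1 + c)) ≤ 2 * (ε ^ 2 / 3) := by nlinarith
  have h6 : ε * ε ≤ lam * (lam - (g - 1 + c)) :=
    mul_le_mul (by linarith) (by linarith) hε.le h4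
  nlinarith [sq_nonneg ε]

end Pool.Agent.TH854.BV
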