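import Pool.Agent.TH854.BV.Core
import Pool.Agent.H396R2.Final

set_option autoImplicit false

open Finset Filter Topology

namespace Pool.Agent.TH854.BV

open Pool.Agent.H396R2

lemma law_alg (u E Y S2 qh Ph C K0 hf kf L θ α D η : ℝ) (hu : 0 < u) (hC : 1 ≤ C)
    (hK0 : 1 ≤ K0) (hE : 0 ≤ E) (hL : 0 ≤ L) (hθ : 0 < θ) (hα : 0 < α) (hD : 0 ≤ D)
    (hη : 0 ≤ η) (hhf : 0 ≤ hf)
    (core : u * (Y - L * (C * K0)) ^ 2 + qh * ((C - 1) / kf) - θ⁻¹ * (D * K0 / α) * Ph ≤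
      (1 + θ) * (C ^ 2 * S2))
    (hS2 : u * S2 ≤ K0 ^ 2) (hlam : u * E ≤ K0) (h1 : Ph ≤ hf * E)
    (h2 : (1 - 2 * η) * (C * E) ≤ qh / kf) (h3 : (1 - 2 * η) * (C * E) ≤ Y)
    (h4 : L * (C * K0) ≤ Y) :
    (u * E) ^ 2 + (1 - 1 / C) * (u * E) -
      (6 * η * K0 ^ 2 + 2 * K0 ^ 2 * u * L + θ⁻¹ * (D * K0 ^ 2 * hf / α) + θ * K0 ^ 2) ≤ u * S2 := by
  set lam := u * E with hlamdef
  have hl0 : 0 ≤ lam := by positivity
  have hC0 : 0 < C := by linarith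
  have hK0' : 0 < K0 := by linarith
  set a := u * (Y - L * (C * K0)) with ha
  have ha0 : 0 ≤ a := mul_nonneg hu.le (by linarith)
  have ha1 : (1 - 2 * η) * (C * lam) - u * L * (C * K0) ≤ a := by
    have := mul_le_mul_of_nonneg_left h3 hu.le
    calc (1 - 2 * η) * (C * lam) - u * L * (C * K0)
        = u * ((1 - 2 * η) * (C * E)) - u * L * (C * K0) := by rw [hlamdef]; ring
      _ ≤ u * Y - u * L * (C * K0) := by linarith
      _ = a := by rw [ha]; ring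
  have e1 : 2 * (C * lam) * a - (C * lam) ^ 2 ≤ a ^ 2 := by nlinarith [sq_nonneg (a - C * lam)]
  have e2 : 2 * (C * lam) * ((1 - 2 * η) * (C * lam) - u * L * (C * K0)) ≤ 2 * (C * lam) * a :=
    mul_le_mul_of_nonneg_left ha1 (by positivity)
  have e3 : (C - 1) * ((1 - 2 * η) * (C * lam)) ≤ u * (qh * ((C - 1) / kf)) := by
    have := mul_le_mul_of_nonneg_left h2 (mul_nonneg (by linarith : 0 ≤ C - 1) hu.le)
    calc (C - 1) * ((1 - 2 * η) * (C * lam)) = (C - 1) * u * ((1 - 2 * η) * (C * E)) := by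
          rw [hlamdef]; ring
      _ ≤ _ := this
      _ = _ := by ring
  have hcoef : 0 ≤ θ⁻¹ * (D * K0 / α) := by positivity
  have e4 : u * (θ⁻¹ * (D * K0 / α) * Ph) ≤ θ⁻¹ * (D * K0 ^ 2 * hf / α) := by
    have f1 : u * Ph ≤ hf * lam := by
      have := mul_le_mul_of_nonneg_left h1 hu.le
      rw [hlamdef]; linarith
    have f2 : hf * lam ≤ hf * K0 := mul_le_mul_of_nonneg_left hlam hhf
    have f3 := mul_le_mul_of_nonneg_left (f1.trans f2) hcoef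
    calc u * (θ⁻¹ * (D * K0 / α) * Ph) = θ⁻¹ * (D * K0 / α) * (u * Ph) := by ring
      _ ≤ θ⁻¹ * (D * K0 / α) * (hf * K0) := f3
      _ = _ := by ring
  have e5 := mul_le_mul_of_nonneg_left core hu.le
  have e6 : a ^ 2 = u * (u * (Y - L * (C * K0)) ^ 2) := by rw [ha]; ring
  have e7 : θ * C ^ 2 * (u * S2) ≤ θ * C ^ 2 * K0 ^ 2 :=
    mul_le_mul_of_nonneg_left hS2 (by positivity)
  have hmain : a ^ 2 + (C - 1) * ((1 - 2 * η) * (C * lam)) - θ⁻¹ * (D * K0 ^ 2 * hf / α) ≤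
      C ^ 2 * (u * S2) + θ * C ^ 2 * K0 ^ 2 := by
    have e8 : a ^ 2 + u * (qh * ((C - 1) / kf)) - u * (θ⁻¹ * (D * K0 / α) * Ph) ≤
        C ^ 2 * (u * S2) + θ * C ^ 2 * (u * S2) := by
      calc a ^ 2 + u * (qh * ((C - 1) / kf)) - u * (θ⁻¹ * (D * K0 / α) * Ph)
          = u * (u * (Y - L * (C * K0)) ^ 2 + qh * ((C - 1) / kf) - θ⁻¹ * (D * K0 / α) * Ph) := by
            rw [e6]; ring
        _ ≤ _ := e5
        _ = _ := by ring
    linarith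
  -- bounds of the error terms
  have hX : 0 ≤ θ⁻¹ * (D * K0 ^ 2 * hf / α) := by positivity
  have b1 : lam ^ 2 ≤ K0 ^ 2 := pow_le_pow_left₀ hl0 hlam 2
  have b2 : lam * K0 ≤ K0 ^ 2 := by
    rw [pow_two]; exact mul_le_mul_of_nonneg_right hlam hK0'.le
  have b3 : lam ≤ K0 ^ 2 := hlam.trans (by rw [pow_two]; exact le_mul_of_one_le_left hK0'.le hK0)
  have c1 : 4 * η * C ^ 2 * lam ^ 2 ≤ 4 * η * C ^ 2 * K0 ^ 2 :=
    mul_le_mul_of_nonneg_left b1 (by positivity)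
  have c2 : 2 * C ^ 2 * u * L * (lam * K0) ≤ 2 * C ^ 2 * u * L * K0 ^ 2 :=
    mul_le_mul_of_nonneg_left b2 (by positivity)
  have c3 : 2 * η * ((C - 1) * C) * lam ≤ 2 * η * C ^ 2 * K0 ^ 2 := by
    have : 2 * η * ((C - 1) * C) ≤ 2 * η * C ^ 2 := by
      apply mul_le_mul_of_nonneg_left _ (by positivity)
      rw [pow_two]
      exact mul_le_mul_of_nonneg_right (by linarith) hC0.le
    calc _ ≤ 2 * η * C ^ 2 * lam := mul_le_mul_of_nonneg_right this hl0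
      _ ≤ _ := mul_le_mul_of_nonneg_left b3 (by positivity)
  have c4 : θ⁻¹ * (D * K0 ^ 2 * hf / α) ≤ C ^ 2 * (θ⁻¹ * (D * K0 ^ 2 * hf / α)) := by
    have : (1 : ℝ) ≤ C ^ 2 := one_le_pow₀ hC
    exact le_mul_of_one_le_left hX this
  have hfin : C ^ 2 * (lam ^ 2 + (1 - 1 / C) * lam -
      (6 * η * K0 ^ 2 + 2 * K0 ^ 2 * u * L + θ⁻¹ * (D * K0 ^ 2 * hf / α) + θ * K0 ^ 2)) ≤
      C ^ 2 * (u * S2) := by
    have g1 : C ^ 2 * (lam ^ 2 + (1 - 1 / C) * lam -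
      (6 * η * K0 ^ 2 + 2 * K0 ^ 2 * u * L + θ⁻¹ * (D * K0 ^ 2 * hf / α) + θ * K0 ^ 2)) =
      C ^ 2 * lam ^ 2 + (C - 1) * C * lam - 6 * η * C ^ 2 * K0 ^ 2 - 2 * C ^ 2 * u * L * K0 ^ 2
        - C ^ 2 * (θ⁻¹ * (D * K0 ^ 2 * hf / α)) - θ * C ^ 2 * K0 ^ 2 := by
      field_simp
      ring
    rw [g1]
    have g2 : a ^ 2 + (C - 1) * ((1 - 2 * η) * (C * lam)) ≥ 2 * (C * lam) * ((1 - 2 * η) * (C * lam) -
      u * L * (C * K0)) - (C * lam) ^ 2 + (C - 1) * ((1 - 2 * η) * (C * lam)) := by linarith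
    have g3 : 2 * (C * lam) * ((1 - 2 * η) * (C * lam) -
      u * L * (C * K0)) - (C * lam) ^ 2 + (C - 1) * ((1 - 2 * η) * (C * lam)) =
      C ^ 2 * lam ^ 2 - 4 * η * C ^ 2 * lam ^ 2 - 2 * C ^ 2 * u * L * (lam * K0) +
        (C - 1) * C * lam - 2 * η * ((C - 1) * C) * lam := by ring
    rw [g3] at g2
    linarith
  exact le_of_mul_le_mul_left hfin (by positivity)

lemma EE_eq (F : Finset ℕ) (x : ℝ) (h T : ℕ) (hT : ∀ a ∈ F, a ≤ T) :
    EE F x h = ∑ n ∈ range (h * T + 1), x ^ (2 * n) * (rM F h n : ℝ) := by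
  classical
  unfold EE rM
  rw [← Finset.sum_fiberwise_of_maps_to (g := fun m : Multiset ℕ => m.sum) (t := range (h * T + 1))]
  · apply Finset.sum_congr rfl
    intro n _
    rw [Finset.sum_congr rfl (g := fun _ => x ^ (2 * n))]
    · rw [Finset.sum_const, nsmul_eq_mul, mul_comm]
    · intro M hM
      rw [Finset.mem_filter] at hM
      rw [hM.2]
  · intro M hM
    rw [mem_msets] at hM
    rw [Finset.mem_range]
    have : M.sum ≤ Multiset.card M • T := Multiset.sum_le_card_nsmul M T (fun a ha => hT a (hM.2 a ha))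
    rw [smul_eq_mul, hM.1] at this
    omega

/-- `E_h (1 - h(h-1)/P) ≤ P^h/h!` -/
lemma EE_upper (F : Finset ℕ) (x : ℝ) (hx0 : 0 < x) (hx1 : x ≤ 1) (g T : ℕ)
    (hT : ∀ a ∈ F, a ≤ T) (hP : 0 < pp F x) :
    (1 - ((g + 2 : ℕ) : ℝ) ^ 2 / pp F x) * EE F x (g + 2) ≤
      (pp F x) ^ (g + 2) / (((g + 2).factorial : ℕ) : ℝ) := by
  have h1 := sum_rM_le F x hx0 hx1 g ((g + 2) * T + 1)
  rw [← EE_eq F x (g + 2) T hT] at h1
  have h2 : ∑ n ∈ range ((g + 2) * T + 1), (rho F g n : ℝ) * x ^ (2 * n) = pp F x * ee F x (g + 1) :=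
    YY_eq (F := F) (g := g) (x := x) hT
  rw [h2] at h1
  have h3 := ee_le F x hx0.le (g + 1)
  have h4 := pp_mul_EE_le F x hx0.le (g + 1)
  have hE := EE_nonneg F x (g + 2)
  have hE1 := EE_nonneg F x (g + 1)
  push_cast at h4
  have h5 : (g + 1 : ℝ) * EE F x (g + 1) ≤ (g + 2 : ℝ) ^ 2 / pp F x * EE F x (g + 2) := by
    rw [div_mul_eq_mul_div, le_div_iff₀ hP]
    have : (g + 1 : ℝ) * (pp F x * EE F x (g + 1)) ≤ (g + 1) * ((g + 1 + 1) * EE F x (g + 1 + 1)) :=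
      mul_le_mul_of_nonneg_left h4 (by positivity)
    have e : (g + 1 + 1 : ℕ) = g + 2 := rfl
    calc (g + 1 : ℝ) * EE F x (g + 1) * pp F x = (g + 1 : ℝ) * (pp F x * EE F x (g + 1)) := by ring
      _ ≤ _ := this
      _ ≤ (g + 2 : ℝ) ^ 2 * EE F x (g + 2) := by
        rw [e, ← mul_assoc]
        apply mul_le_mul_of_nonneg_right _ hE
        nlinarith
  have h6 : pp F x * ee F x (g + 1) ≤ (g + 2 : ℝ) * ((pp F x) ^ (g + 2) / (((g + 2).factorial : ℕ) : ℝ)) := by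
    have h7 := mul_le_mul_of_nonneg_left h3 hP.le
    refine h7.trans (le_of_eq ?_)
    rw [Nat.factorial_succ (g + 1)]
    push_cast
    field_simp
    ring
  have h8 : (g + 2 : ℝ) * EE F x (g + 2) ≤
      (g + 2 : ℝ) * ((pp F x) ^ (g + 2) / (((g + 2).factorial : ℕ) : ℝ)) +
      (g + 2) * ((g + 2 : ℝ) ^ 2 / pp F x * EE F x (g + 2)) := by
    refine h1.trans (add_le_add h6 ?_)
    exact mul_le_mul_of_nonneg_left h5 (by positivity)
  have h9 : (g + 2 : ℝ) * EE F x (g + 2) ≤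
      (g + 2 : ℝ) * ((pp F x) ^ (g + 2) / (((g + 2).factorial : ℕ) : ℝ) +
      (g + 2 : ℝ) ^ 2 / pp F x * EE F x (g + 2)) := by
    rw [mul_add]; exact h8
  have h10 := le_of_mul_le_mul_left h9 (by positivity)
  push_cast
  linarith

end Pool.Agent.TH854.BV
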