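import Pool.Agent.TH854.BV.Law

set_option autoImplicit false

open Finset Filter Topology

namespace Pool.Agent.TH854.BV

open Pool.Agent.H396R2

open Classical in
/-- the elements of `A` up to `T` -/
noncomputable def FT (A : Set ℕ) (T : ℕ) : Finset ℕ := (range (T + 1)).filter (fun a => a ∈ A)

lemma mem_FT {A : Set ℕ} {T a : ℕ} : a ∈ FT A T ↔ a ∈ A ∧ a ≤ T := by
  classical
  unfold FT
  rw [Finset.mem_filter, Finset.mem_range, Nat.lt_succ_iff]
  tauto

lemma rM_FT_le (A : Set ℕ) (T h n : ℕ) : rM (FT A T) h n ≤ rep A h n :=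
  card_msets_le_rep A (FT A T) (fun a ha => (mem_FT.1 ha).1) h n

lemma rM_FT_eq (A : Set ℕ) (T h n : ℕ) (hn : n ≤ T) : rM (FT A T) h n = rep A h n :=
  (rep_eq_card_msets A (FT A T) T (fun a => mem_FT) h n hn).symm

lemma exists_many (A : Set ℕ) (hA : A.Infinite) (R : ℝ) : ∃ N, R ≤ ((FT A N).card : ℝ) := by
  obtain ⟨n, hn⟩ := exists_nat_ge R
  obtain ⟨t, ht, hc⟩ := hA.exists_subset_card_eq n
  refine ⟨t.sup id, hn.trans ?_⟩
  rw [← hc]
  exact_mod_cast Finset.card_le_card (fun a ha => mem_FT.2 ⟨ht ha, Finset.le_sup (f := id) ha⟩)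

lemma pp_large (A : Set ℕ) (hA : A.Infinite) (R : ℝ) : ∃ N, ∀ T, N ≤ T → ∀ x : ℝ, 0 ≤ x → x ≤ 1 →
    1 / 2 ≤ x ^ (2 * N) → R ≤ pp (FT A T) x := by
  obtain ⟨N, hN⟩ := exists_many A hA (2 * R)
  refine ⟨N, fun T hT x hx0 hx1 hx => ?_⟩
  unfold pp
  calc R ≤ ((FT A N).card : ℝ) * (1 / 2) := by linarith
    _ = ∑ a ∈ FT A N, (1 / 2 : ℝ) := by rw [Finset.sum_const, nsmul_eq_mul]
    _ ≤ ∑ a ∈ FT A N, x ^ (2 * a) := by
        apply Finset.sum_le_sum
        intro a ha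
        rw [mem_FT] at ha
        exact hx.trans (pow_le_pow_of_le_one hx0 hx1 (by omega))
    _ ≤ ∑ a ∈ FT A T, x ^ (2 * a) := by
        apply Finset.sum_le_sum_of_subset_of_nonneg
        · intro a ha
          rw [mem_FT] at ha ⊢
          exact ⟨ha.1, by omega⟩
        · intro a _ _
          positivity

lemma eventually_pow (L : ℕ) : ∀ᶠ x : ℝ in 𝓝[<] 1, 1 / 2 ≤ x ^ L := by
  have h1 : Tendsto (fun x : ℝ => x ^ L) (𝓝[<] 1) (𝓝 1) := by
    have := (continuous_pow L).tendsto (1 : ℝ)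
    rw [one_pow] at this
    exact this.mono_left nhdsWithin_le_nhds
  exact (h1.eventually (lt_mem_nhds (by norm_num : (1 / 2 : ℝ) < 1))).mono fun x hx => hx.le

lemma eventually_small (δ : ℝ) (hδ : 0 < δ) : ∀ᶠ x : ℝ in 𝓝[<] 1, 1 - x ^ 2 ≤ δ := by
  have h1 : Tendsto (fun x : ℝ => 1 - x ^ 2) (𝓝[<] 1) (𝓝 0) := by
    have : Tendsto (fun x : ℝ => 1 - x ^ 2) (𝓝 1) (𝓝 (1 - 1 ^ 2)) :=
      (continuous_const.sub (continuous_pow 2)).tendsto (1 : ℝ)
    rw [one_pow, sub_self] at this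
    exact this.mono_left nhdsWithin_le_nhds
  exact (h1.eventually (gt_mem_nhds hδ)).mono fun x hx => hx.le

lemma eventually_Ioo : ∀ᶠ x : ℝ in 𝓝[<] 1, 0 < x ∧ x < 1 := by
  have : Set.Ioo (0 : ℝ) 1 ∈ 𝓝[<] (1 : ℝ) := Ioo_mem_nhdsLT (by norm_num)
  exact this

/-- the law for finite sections -/
theorem fin_law (A : Set ℕ) (hA : A.Infinite) (k m : ℕ) (hmk : m ≤ k) (hm : 1 ≤ m) (K0 : ℕ)
    (hK : ∀ n, rep A (k + m) n ≤ K0) (ε : ℝ) (hε : 0 < ε) :
    ∀ᶠ x : ℝ in 𝓝[<] 1, ∀ᶠ T : ℕ in atTop,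
      ((1 - x ^ 2) * EE (FT A T) x (k + m)) ^ 2 +
        (1 - 1 / ((k + m).choose m : ℝ)) * ((1 - x ^ 2) * EE (FT A T) x (k + m)) - ε ≤
      (1 - x ^ 2) * ∑ n ∈ range ((k + m) * T + 1), x ^ (2 * n) * (rM (FT A T) (k + m) n : ℝ) ^ 2 := by
  obtain ⟨g, hg⟩ : ∃ g, k + m = g + 2 := ⟨k + m - 2, by omega⟩
  obtain ⟨a0, ha0⟩ := hA.nonempty
  set K : ℝ := (K0 : ℝ) + 1 with hKdef
  have hK1 : 1 ≤ K := by rw [hKdef]; have : (0 : ℝ) ≤ K0 := Nat.cast_nonneg _; linarith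
  have hKpos : 0 < K := by linarith
  set C : ℝ := ((k + m).choose m : ℝ) with hC
  have hC1 : 1 ≤ C := by
    rw [hC]
    exact_mod_cast Nat.choose_pos (by omega : m ≤ k + m)
  set hf : ℝ := ((k + m).factorial : ℝ) with hhf
  have hhf0 : 0 < hf := by rw [hhf]; exact_mod_cast Nat.factorial_pos _
  set kf : ℝ := (k.factorial : ℝ) * (m.factorial : ℝ) with hkf
  have hkf0 : 0 < kf := by
    rw [hkf]
    have h1 : (0 : ℝ) < (k.factorial : ℝ) := by exact_mod_cast Nat.factorial_pos _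
    have h2 : (0 : ℝ) < (m.factorial : ℝ) := by exact_mod_cast Nat.factorial_pos _
    positivity
  have hCf : C = hf / kf := by
    rw [hC, hhf, hkf, Nat.cast_choose ℝ (by omega : m ≤ k + m)]
    rw [Nat.add_sub_cancel, mul_comm (m.factorial : ℝ)]
  set D : ℝ := 4 * m ^ 2 * 4 ^ (k + m) with hD
  have hD0 : 0 ≤ D := by rw [hD]; positivity
  set θ : ℝ := ε / (4 * K ^ 2) with hθ
  have hθ0 : 0 < θ := by rw [hθ]; positivity
  set α : ℝ := 4 * (θ⁻¹ * (D * K ^ 2 * hf)) / ε + 1 with hα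
  have hα0 : 0 < α := by
    rw [hα]
    have : 0 ≤ 4 * (θ⁻¹ * (D * K ^ 2 * hf)) / ε := by positivity
    linarith
  obtain ⟨N, hN⟩ := exists_many A hA α
  set L := N + 1 with hL
  set η : ℝ := min (ε / (24 * K ^ 2)) (1 / 2) with hη
  have hη0 : 0 < η := by rw [hη]; apply lt_min <;> positivity
  have hη1 : η ≤ 1 / 2 := min_le_right _ _
  have hη2 : η ≤ ε / (24 * K ^ 2) := min_le_left _ _
  set P1 : ℝ := max (((k + m : ℕ) : ℝ) ^ 2 / η) ((k + m : ℝ) + 1 + kf * (L * (C * K))) with hP1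
  obtain ⟨N1, hN1⟩ := pp_large A hA P1
  filter_upwards [eventually_Ioo, eventually_pow L, eventually_pow (2 * N1),
    eventually_small (ε / (8 * K ^ 2 * L)) (by positivity)] with x hx hxL hxN hxu
  obtain ⟨hx0, hx1⟩ := hx
  filter_upwards [eventually_ge_atTop (max N1 (max N a0))] with T hT
  have hTN1 : N1 ≤ T := le_trans (le_max_left _ _) hT
  have hTN : N ≤ T := le_trans (le_trans (le_max_left _ _) (le_max_right _ _)) hT
  have hTa : a0 ≤ T := le_trans (le_trans (le_max_right _ _) (le_max_right _ _)) hT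
  set F := FT A T with hF
  have hFT : ∀ a ∈ F, a ≤ T := fun a ha => (mem_FT.1 ha).2
  have hKF : ∀ n, rM F (k + m) n ≤ K0 + 1 := fun n =>
    ((rM_FT_le A T (k + m) n).trans (hK n)).trans (Nat.le_succ _)
  set P := pp F x with hP
  have hPP1 : P1 ≤ P := hN1 T hTN1 x hx0.le hx1.le hxN
  have hPa : ((k + m : ℕ) : ℝ) ^ 2 / η ≤ P := (le_max_left _ _).trans hPP1
  have hPb : (k + m : ℝ) + 1 + kf * (L * (C * K)) ≤ P := (le_max_right _ _).trans hPP1
  have hLCK : 0 ≤ (L : ℝ) * (C * K) := by positivity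
  have hPh : (k + m : ℝ) + 1 ≤ P := by
    have : 0 ≤ kf * (L * (C * K)) := by positivity
    linarith
  have hP0 : 0 < P := by
    have : (0 : ℝ) ≤ k + m := by positivity
    linarith
  set q := P - (k + m) with hq
  have hq1 : 1 ≤ q := by linarith
  have hηP : ((k + m : ℕ) : ℝ) ^ 2 / P ≤ η := by
    rw [div_le_iff₀ hP0]
    rw [div_le_iff₀ hη0] at hPa
    linarith
  set E := EE F x (k + m) with hE
  have hE0 : 0 ≤ E := EE_nonneg F x (k + m)
  have hu : 0 < 1 - x ^ 2 := by nlinarith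
  -- P ^ h ≤ hf * E
  have h1 : P ^ (k + m) ≤ hf * E := by
    have := EE_ge F x hx0.le (k + m)
    rw [div_le_iff₀ hhf0] at this
    linarith
  -- (1 - η) E ≤ P^h / hf
  have h1' : (1 - η) * E ≤ P ^ (k + m) / hf := by
    have h := EE_upper F x hx0 hx1.le g T hFT hP0
    rw [← hg] at h
    refine le_trans ?_ h
    exact mul_le_mul_of_nonneg_right (by linarith) hE0
  have h1'' : (1 - η) * (hf * E) ≤ P ^ (k + m) := by
    rw [le_div_iff₀ hhf0] at h1'
    linarith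
  -- Bernoulli
  have hqh : (1 - η) * P ^ (k + m) ≤ q ^ (k + m) := by
    have hb := one_add_mul_le_pow (a := -((k + m : ℝ) / P)) (by
      have : (k + m : ℝ) / P ≤ 1 := by rw [div_le_one hP0]; linarith
      linarith) (k + m)
    have e1 : q = (1 + -((k + m : ℝ) / P)) * P := by
      rw [hq]; field_simp; ring
    have e2 : 1 - ((k + m : ℕ) : ℝ) ^ 2 / P = 1 + ((k + m : ℕ) : ℝ) * -((k + m : ℝ) / P) := by
      push_cast; ring
    rw [e1, mul_pow]
    apply mul_le_mul_of_nonneg_right _ (by positivity)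
    refine le_trans ?_ hb
    rw [← e2]
    linarith
  have hqf : (1 - 2 * η) * (hf * E) ≤ q ^ (k + m) := by
    have h2 : (1 - η) * ((1 - η) * (hf * E)) ≤ (1 - η) * P ^ (k + m) :=
      mul_le_mul_of_nonneg_left h1'' (by linarith)
    have h3 : 0 ≤ η ^ 2 * (hf * E) := by positivity
    have e : (1 - η) * ((1 - η) * (hf * E)) = (1 - 2 * η) * (hf * E) + η ^ 2 * (hf * E) := by ring
    linarith
  have h2 : (1 - 2 * η) * (C * E) ≤ q ^ (k + m) / kf := by
    rw [le_div_iff₀ hkf0]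
    have e : C * kf = hf := by rw [hCf]; field_simp
    calc (1 - 2 * η) * (C * E) * kf = (1 - 2 * η) * ((C * kf) * E) := by ring
      _ ≤ q ^ (k + m) := by rw [e]; exact hqf
  have hY : q ^ (k + m) / kf ≤ ee F x k * ee F x m := by
    have ha := ee_ge F x hx0.le hx1.le q (by linarith) k (by
      have : (0 : ℝ) ≤ m := Nat.cast_nonneg _
      rw [hq]; linarith)
    have hb := ee_ge F x hx0.le hx1.le q (by linarith) m (by
      have : (0 : ℝ) ≤ k := Nat.cast_nonneg _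
      rw [hq]; linarith)
    calc q ^ (k + m) / kf = (q ^ k / (k.factorial : ℝ)) * (q ^ m / (m.factorial : ℝ)) := by
          rw [hkf, pow_add]; field_simp
      _ ≤ _ := mul_le_mul ha hb (by positivity) (ee_nonneg F x hx0.le k)
  have h4 : (L : ℝ) * (C * K) ≤ ee F x k * ee F x m := by
    refine le_trans ?_ hY
    rw [le_div_iff₀ hkf0]
    have hqq : q ≤ q ^ (k + m) := le_self_pow₀ hq1 (by omega)
    linarith
  have hcore := core F k m hmk x hx0 hx1 T hFT (K0 + 1) hKF L (by omega) hxL a0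
    (mem_FT.2 ⟨ha0, hTa⟩) α hα0 (by
      refine hN.trans ?_
      have : (FT A N) ⊆ F.filter (fun c => c < L) := by
        intro a ha
        rw [mem_FT] at ha
        rw [Finset.mem_filter, hF, mem_FT]
        exact ⟨⟨ha.1, by omega⟩, by omega⟩
      exact_mod_cast Finset.card_le_card this) θ hθ0 (by rw [← hP]; linarith)
    (by push_cast; exact h4)
  set S2 := ∑ n ∈ range ((k + m) * T + 1), x ^ (2 * n) * (rM F (k + m) n : ℝ) ^ 2 with hS2
  have hS2le : (1 - x ^ 2) * S2 ≤ K ^ 2 := by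
    have h5 : S2 ≤ K ^ 2 * (1 - x ^ 2)⁻¹ := by
      calc S2 ≤ ∑ n ∈ range ((k + m) * T + 1), K ^ 2 * x ^ (2 * n) := by
            rw [hS2]
            apply Finset.sum_le_sum
            intro n _
            rw [mul_comm]
            apply mul_le_mul_of_nonneg_right _ (by positivity)
            apply pow_le_pow_left₀ (Nat.cast_nonneg _)
            rw [hKdef]
            exact_mod_cast hKF n
        _ ≤ _ := by
            rw [← Finset.mul_sum]
            exact mul_le_mul_of_nonneg_left (geom_le x hx0 hx1 _) (by positivity)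
    calc (1 - x ^ 2) * S2 ≤ (1 - x ^ 2) * (K ^ 2 * (1 - x ^ 2)⁻¹) :=
          mul_le_mul_of_nonneg_left h5 hu.le
      _ = K ^ 2 := by field_simp
  have hlam : (1 - x ^ 2) * E ≤ K := by
    have h5 := EE_le F x hx0 hx1 (k + m) (K0 + 1) hKF
    calc (1 - x ^ 2) * E ≤ (1 - x ^ 2) * (((K0 + 1 : ℕ) : ℝ) * (1 - x ^ 2)⁻¹) :=
          mul_le_mul_of_nonneg_left h5 hu.le
      _ = K := by rw [hKdef]; push_cast; field_simp
  have hfinal := law_alg (1 - x ^ 2) E (ee F x k * ee F x m) S2 (q ^ (k + m)) (P ^ (k + m)) C K hf kf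
    L θ α D η hu hC1 hK1 hE0 (Nat.cast_nonneg _) hθ0 hα0 hD0 hη0.le hhf0.le
    (by
      push_cast at hcore
      rw [← hC, ← hKdef, ← hkf] at hcore
      exact hcore) hS2le hlam h1 h2 (h2.trans hY) h4
  -- error
  have e1 : 6 * η * K ^ 2 ≤ ε / 4 := by
    calc 6 * η * K ^ 2 ≤ 6 * (ε / (24 * K ^ 2)) * K ^ 2 := by gcongr
      _ = ε / 4 := by field_simp; norm_num
  have hLpos : (0 : ℝ) < L := by rw [hL]; positivity
  have e2 : 2 * K ^ 2 * (1 - x ^ 2) * L ≤ ε / 4 := by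
    calc 2 * K ^ 2 * (1 - x ^ 2) * L ≤ 2 * K ^ 2 * (ε / (8 * K ^ 2 * L)) * L := by gcongr
      _ = ε / 4 := by field_simp; norm_num
  have e3 : θ⁻¹ * (D * K ^ 2 * hf / α) ≤ ε / 4 := by
    rw [← mul_div_assoc, div_le_iff₀ hα0, hα]
    have : ε / 4 * (4 * (θ⁻¹ * (D * K ^ 2 * hf)) / ε + 1) = θ⁻¹ * (D * K ^ 2 * hf) + ε / 4 := by
      field_simp
    rw [this]
    linarith
  have e4 : θ * K ^ 2 = ε / 4 := by
    rw [hθ]; field_simp
  linarith

end Pool.Agent.TH854.BV
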