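import Pool.Agent.TH854.BV.Pairs

set_option autoImplicit false

open Finset

namespace Pool.Agent.TH854.BV

open Pool.Agent.H396R2

lemma RR_eq (F : Finset ℕ) (k m : ℕ) (x : ℝ) (B : ℕ) [NeZero B] :
    RR (PW F k m) nu x B = push (F.powersetCard k ×ˢ F.powersetCard m)
      (fun ω => (fun S : Finset ℕ => ((∑ a ∈ S, a : ℕ) : ZMod B)) ω.1 +
        (fun S : Finset ℕ => ((∑ a ∈ S, a : ℕ) : ZMod B)) ω.2)
      (fun ω => (fun S : Finset ℕ => x ^ (∑ a ∈ S, a)) ω.1 *
        (fun S : Finset ℕ => x ^ (∑ a ∈ S, a)) ω.2) := by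
  unfold RR PW nu
  congr 1
  · funext ω
    push_cast
    rfl
  · funext ω
    rw [pow_add]

lemma corr_RR (F : Finset ℕ) (k m : ℕ) (x : ℝ) (B : ℕ) [NeZero B] (j : ZMod B) :
    ∑ κ, RR (PW F k m) nu x B κ * RR (PW F k m) nu x B (κ + j)
      = ∑ κ, sf' F k m x B κ * sf' F k m x B (κ + j) := by
  rw [RR_eq]
  exact corr_eq (F.powersetCard k) (F.powersetCard m)
    (fun S : Finset ℕ => ((∑ a ∈ S, a : ℕ) : ZMod B))
    (fun S : Finset ℕ => ((∑ a ∈ S, a : ℕ) : ZMod B))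
    (fun S : Finset ℕ => x ^ (∑ a ∈ S, a)) (fun S : Finset ℕ => x ^ (∑ a ∈ S, a)) j

lemma sq_RR (F : Finset ℕ) (k m : ℕ) (x : ℝ) (B : ℕ) [NeZero B] :
    ∑ κ, (RR (PW F k m) nu x B κ) ^ 2 = ∑ κ, (sf' F k m x B κ) ^ 2 := by
  have h := corr_RR F k m x B 0
  simp only [add_zero] at h
  simp_rw [pow_two]
  exact h

lemma win_sf (F : Finset ℕ) (k m : ℕ) (x : ℝ) (B L : ℕ) [NeZero B] :
    ∑ κ, (win L (fun i => (i : ZMod B)) (RR (PW F k m) nu x B) κ) ^ 2
      = ∑ κ, (win L (fun i => (i : ZMod B)) (sf' F k m x B) κ) ^ 2 := by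
  unfold win
  rw [win_corr L (fun i => (i : ZMod B)), win_corr L (fun i => (i : ZMod B))]
  simp_rw [corr_RR]

lemma sum_PW (F : Finset ℕ) (k m : ℕ) (x : ℝ) :
    ∑ ω ∈ PW F k m, x ^ (2 * nu ω) = ee F x k * ee F x m := by
  unfold PW ee nu
  rw [Finset.sum_mul_sum, ← Finset.sum_product']
  apply Finset.sum_congr rfl
  intro ω _
  rw [mul_add, pow_add]

lemma sum_PW_nonneg (F : Finset ℕ) (k m : ℕ) (x : ℝ) (hx0 : 0 ≤ x) :
    0 ≤ ∑ ω ∈ PW F k m, x ^ (2 * nu ω) := Finset.sum_nonneg fun ω _ => by positivity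

/-- (1) -/
lemma sum_tq_sq_ge (F : Finset ℕ) (k m : ℕ) (hmk : m ≤ k) (x : ℝ) (hx0 : 0 ≤ x) (hx1 : x ≤ 1)
    (B : ℕ) [NeZero B] (q : ℝ) (hq : 0 ≤ q) (hqP : q + (k + m) ≤ pp F x) :
    q ^ (k + m) * ((((k + m).choose m : ℝ) - 1) / ((k.factorial : ℝ) * (m.factorial : ℝ))) ≤
      ∑ κ, (tq F k m x B (fun j => q ^ j / (j.factorial : ℝ)) κ) ^ 2 := by
  rw [← vander k m hmk, Finset.mul_sum]
  have h1 : ∀ κ : ZMod B, ∑ j ∈ range m, ((q ^ (j + 1) / ((j + 1).factorial : ℝ)) *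
      df F (k - (j + 1)) (m - (j + 1)) x B κ) ^ 2 ≤
      (tq F k m x B (fun j => q ^ j / (j.factorial : ℝ)) κ) ^ 2 := by
    intro κ
    unfold tq
    apply Finset.sum_sq_le_sq_sum_of_nonneg
    intro j _
    exact mul_nonneg (by positivity) (df_nonneg F _ _ x hx0 B κ)
  refine le_trans ?_ (Finset.sum_le_sum fun κ _ => h1 κ)
  rw [Finset.sum_comm]
  apply Finset.sum_le_sum
  intro j hj
  rw [Finset.mem_range] at hj
  simp_rw [mul_pow]
  rw [← Finset.mul_sum]
  have h2 : ∑ ω ∈ DP F (k - (j + 1)) (m - (j + 1)), x ^ (2 * nu ω) ≤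
      ∑ κ, (df F (k - (j + 1)) (m - (j + 1)) x B κ) ^ 2 := by
    unfold df
    refine le_trans (le_of_eq ?_) (sum_push_sq_ge _ _ _ (fun ω _ => ww_nonneg x hx0 ω))
    exact Finset.sum_congr rfl fun ω _ => (ww_sq x ω).symm
  have h3 := DP_ge F (k - (j + 1)) (m - (j + 1)) x hx0 hx1 q hq (by
    have e1 : ((k - (j + 1) : ℕ) : ℝ) ≤ k := by exact_mod_cast Nat.sub_le _ _
    have e2 : ((m - (j + 1) : ℕ) : ℝ) ≤ m := by exact_mod_cast Nat.sub_le _ _
    linarith)
  refine le_trans (le_of_eq ?_) (mul_le_mul_of_nonneg_left (h3.trans h2) (by positivity))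
  have e : k + m = (j + 1) * 2 + ((k - (j + 1)) + (m - (j + 1))) := by omega
  rw [div_pow, ← pow_mul]
  nth_rewrite 1 [e]
  rw [pow_add q ((j + 1) * 2)]
  have f1 : ((j + 1).factorial : ℝ) ≠ 0 := by exact_mod_cast Nat.factorial_ne_zero _
  have f2 : ((k - (j + 1)).factorial : ℝ) ≠ 0 := by exact_mod_cast Nat.factorial_ne_zero _
  have f3 : ((m - (j + 1)).factorial : ℝ) ≠ 0 := by exact_mod_cast Nat.factorial_ne_zero _
  field_simp

/-- (2) -/
lemma sum_win_tq_le (F : Finset ℕ) (k m L : ℕ) (hmk : m ≤ k) (x : ℝ) (hx0 : 0 < x) (hx1 : x ≤ 1)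
    (hxL : 1 / 2 ≤ x ^ L) (B : ℕ) [NeZero B]
    (hB : ∀ j < m, ∀ ω ∈ PW F (k - (j + 1)) (m - (j + 1)), nu ω + L < B) (W : ℝ)
    (hW : ∀ j < m, ∀ y i, (((PW F (k - (j + 1)) (m - (j + 1))).filter
      (fun ω => y ≤ nu ω + i ∧ nu ω + i < y + L)).card : ℝ) ≤ W)
    (q : ℝ) (hq : 0 ≤ q) (hqP : q ≤ pp F x) :
    ∑ κ, (win L (fun i => (i : ZMod B)) (tq F k m x B (fun j => q ^ j / (j.factorial : ℝ))) κ) ^ 2 ≤
      2 * m ^ 2 * L * W * (pp F x) ^ (k + m) := by
  set P := pp F x with hP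
  have hP0 : 0 ≤ P := hq.trans hqP
  have h1 : ∀ κ : ZMod B,
      (win L (fun i => (i : ZMod B)) (tq F k m x B (fun j => q ^ j / (j.factorial : ℝ))) κ) ^ 2 ≤
      (m : ℝ) * ∑ j ∈ range m, (q ^ (j + 1) / ((j + 1).factorial : ℝ)) ^ 2 *
        (win L (fun i => (i : ZMod B)) (sf' F (k - (j + 1)) (m - (j + 1)) x B) κ) ^ 2 := by
    intro κ
    have e1 : win L (fun i => (i : ZMod B)) (tq F k m x B (fun j => q ^ j / (j.factorial : ℝ))) κ
        = ∑ j ∈ range m, (q ^ (j + 1) / ((j + 1).factorial : ℝ)) *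
          win L (fun i => (i : ZMod B)) (df F (k - (j + 1)) (m - (j + 1)) x B) κ := by
      unfold win tq
      rw [Finset.sum_comm]
      simp_rw [Finset.mul_sum]
    have e2 : ∑ j ∈ range m, (q ^ (j + 1) / ((j + 1).factorial : ℝ)) *
          win L (fun i => (i : ZMod B)) (df F (k - (j + 1)) (m - (j + 1)) x B) κ ≤
        ∑ j ∈ range m, (q ^ (j + 1) / ((j + 1).factorial : ℝ)) *
          win L (fun i => (i : ZMod B)) (sf' F (k - (j + 1)) (m - (j + 1)) x B) κ := by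
      apply Finset.sum_le_sum
      intro j _
      apply mul_le_mul_of_nonneg_left _ (by positivity)
      exact win_mono L _ _ _ (fun κ => df_le F _ _ x hx0.le B κ) κ
    have e3 : 0 ≤ ∑ j ∈ range m, (q ^ (j + 1) / ((j + 1).factorial : ℝ)) *
          win L (fun i => (i : ZMod B)) (df F (k - (j + 1)) (m - (j + 1)) x B) κ := by
      apply Finset.sum_nonneg
      intro j _
      exact mul_nonneg (by positivity)
        (win_nonneg L _ _ (fun κ => df_nonneg F _ _ x hx0.le B κ) κ)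
    rw [e1]
    refine (pow_le_pow_left₀ e3 e2 2).trans ?_
    refine (sq_sum_le_card_mul_sum_sq).trans (le_of_eq ?_)
    rw [card_range]
    simp_rw [mul_pow]
  refine (Finset.sum_le_sum fun κ _ => h1 κ).trans ?_
  rw [← Finset.mul_sum, Finset.sum_comm]
  have h2 : ∀ j ∈ range m, ∑ κ : ZMod B, (q ^ (j + 1) / ((j + 1).factorial : ℝ)) ^ 2 *
        (win L (fun i => (i : ZMod B)) (sf' F (k - (j + 1)) (m - (j + 1)) x B) κ) ^ 2 ≤
      2 * L * W * P ^ (k + m) := by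
    intro j hj
    rw [Finset.mem_range] at hj
    rw [← Finset.mul_sum, ← win_sf]
    have h3 := win_RR_le (P := PW F (k - (j + 1)) (m - (j + 1))) (ν := nu) (B := B) hx0 hx1 hxL
      (hB j hj) W (hW j hj)
    have hW0 : 0 ≤ W := le_trans (Nat.cast_nonneg _) (hW j hj 0 0)
    have h4 : ∑ ω ∈ PW F (k - (j + 1)) (m - (j + 1)), x ^ (2 * nu ω) ≤
        P ^ ((k - (j + 1)) + (m - (j + 1))) := by
      rw [sum_PW, pow_add]
      exact mul_le_mul (ee_le_pow F x hx0.le _) (ee_le_pow F x hx0.le _) (ee_nonneg F x hx0.le _)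
        (by positivity)
    have h5 : (q ^ (j + 1) / ((j + 1).factorial : ℝ)) ^ 2 ≤ P ^ ((j + 1) * 2) := by
      rw [pow_mul]
      apply pow_le_pow_left₀ (by positivity)
      refine (div_le_self (by positivity) ?_).trans (pow_le_pow_left₀ hq hqP _)
      exact_mod_cast Nat.one_le_iff_ne_zero.2 (Nat.factorial_ne_zero _)
    have h6 := h3.trans (mul_le_mul_of_nonneg_left h4 (by positivity : 0 ≤ 2 * (L : ℝ) * W))
    calc _ ≤ P ^ ((j + 1) * 2) * (2 * (L : ℝ) * W * P ^ ((k - (j + 1)) + (m - (j + 1)))) :=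
          mul_le_mul h5 h6 (Finset.sum_nonneg fun _ _ => sq_nonneg _) (by positivity)
      _ = 2 * L * W * (P ^ ((j + 1) * 2) * P ^ ((k - (j + 1)) + (m - (j + 1)))) := by ring
      _ = 2 * L * W * P ^ (k + m) := by
          rw [← pow_add]
          congr 2
          omega
  calc (m : ℝ) * ∑ j ∈ range m, ∑ κ : ZMod B, (q ^ (j + 1) / ((j + 1).factorial : ℝ)) ^ 2 *
        (win L (fun i => (i : ZMod B)) (sf' F (k - (j + 1)) (m - (j + 1)) x B) κ) ^ 2
      ≤ (m : ℝ) * ∑ j ∈ range m, 2 * L * W * P ^ (k + m) :=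
        mul_le_mul_of_nonneg_left (Finset.sum_le_sum h2) (Nat.cast_nonneg _)
    _ = _ := by
        rw [Finset.sum_const, card_range, nsmul_eq_mul]
        ring

/-- (3) -/
lemma cnt_PW_le (F : Finset ℕ) (k m n : ℕ) :
    cnt (PW F k m) nu n ≤ (k + m).choose m * rM F (k + m) n := by
  classical
  unfold cnt rM
  apply Finset.card_le_mul_card_image_of_maps_to (f := fun ω : Finset ℕ × Finset ℕ =>
    ω.1.val + ω.2.val)
  · intro ω hω
    rw [Finset.mem_filter, mem_PW] at hω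
    rw [Finset.mem_filter, mem_msets]
    refine ⟨⟨?_, ?_⟩, ?_⟩
    · rw [Multiset.card_add]
      show ω.1.card + ω.2.card = k + m
      rw [hω.1.1.2, hω.1.2.2]
    · intro a ha
      rw [Multiset.mem_add] at ha
      rcases ha with ha | ha
      · exact hω.1.1.1 ha
      · exact hω.1.2.1 ha
    · rw [Multiset.sum_add, Finset.sum_val, Finset.sum_val]
      exact hω.2
  · intro M hM
    rw [Finset.mem_filter, mem_msets] at hM
    have h1 : (((PW F k m).filter (fun ω => nu ω = n)).filter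
        (fun ω => ω.1.val + ω.2.val = M)).card ≤ ((Multiset.powersetCard m M).toFinset).card := by
      apply Finset.card_le_card_of_injOn (fun ω => ω.2.val)
      · intro ω hω
        rw [Finset.mem_coe, Finset.mem_filter, Finset.mem_filter, mem_PW] at hω
        rw [Finset.mem_coe, Multiset.mem_toFinset, Multiset.mem_powersetCard]
        refine ⟨?_, hω.1.1.2.2⟩
        rw [← hω.2]
        exact Multiset.le_add_left _ _
      · intro ω hω ω' hω' h
        rw [Finset.mem_coe, Finset.mem_filter] at hω hω'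
        have h2 : ω.2 = ω'.2 := Finset.val_injective h
        have h3 : ω.1.val + ω.2.val = ω'.1.val + ω'.2.val := by rw [hω.2, hω'.2]
        rw [h2] at h3
        exact Prod.ext (Finset.val_injective (add_right_cancel h3)) h2
    refine h1.trans ((Multiset.toFinset_card_le _).trans ?_)
    rw [Multiset.card_powersetCard, hM.1.1]

end Pool.Agent.TH854.BV
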