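import Pool.Agent.TH854.BV.Ee

set_option autoImplicit false

open Finset

namespace Pool.Agent.TH854.BV

open Pool.Agent.H396R2

/-- pairs of a `k`-set and an `m`-set -/
def PW (F : Finset ℕ) (k m : ℕ) : Finset (Finset ℕ × Finset ℕ) :=
  F.powersetCard k ×ˢ F.powersetCard m

/-- the sum of all elements of a pair -/
def nu (ω : Finset ℕ × Finset ℕ) : ℕ := ∑ a ∈ ω.1, a + ∑ a ∈ ω.2, a

/-- disjoint pairs -/
def DP (F : Finset ℕ) (k m : ℕ) : Finset (Finset ℕ × Finset ℕ) :=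
  (PW F k m).filter (fun ω => Disjoint ω.1 ω.2)

def zz (B : ℕ) (ω : Finset ℕ × Finset ℕ) : ZMod B :=
  ((∑ a ∈ ω.1, a : ℕ) : ZMod B) - ((∑ a ∈ ω.2, a : ℕ) : ZMod B)

noncomputable def ww (x : ℝ) (ω : Finset ℕ × Finset ℕ) : ℝ :=
  x ^ (∑ a ∈ ω.1, a) * x ^ (∑ a ∈ ω.2, a)

lemma ww_nonneg (x : ℝ) (hx : 0 ≤ x) (ω : Finset ℕ × Finset ℕ) : 0 ≤ ww x ω := by
  unfold ww; positivity

lemma ww_sq (x : ℝ) (ω : Finset ℕ × Finset ℕ) : (ww x ω) ^ 2 = x ^ (2 * nu ω) := by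
  unfold ww nu
  rw [← pow_add, ← pow_mul]
  congr 1
  ring

lemma mem_PW {F : Finset ℕ} {k m : ℕ} {ω : Finset ℕ × Finset ℕ} :
    ω ∈ PW F k m ↔ (ω.1 ⊆ F ∧ ω.1.card = k) ∧ (ω.2 ⊆ F ∧ ω.2.card = m) := by
  unfold PW
  rw [Finset.mem_product, Finset.mem_powersetCard, Finset.mem_powersetCard]

lemma mem_DP {F : Finset ℕ} {k m : ℕ} {ω : Finset ℕ × Finset ℕ} :
    ω ∈ DP F k m ↔ ((ω.1 ⊆ F ∧ ω.1.card = k) ∧ (ω.2 ⊆ F ∧ ω.2.card = m)) ∧ Disjoint ω.1 ω.2 := by
  unfold DP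
  rw [Finset.mem_filter, mem_PW]

noncomputable def sf' (F : Finset ℕ) (k m : ℕ) (x : ℝ) (B : ℕ) [NeZero B] : ZMod B → ℝ :=
  push (PW F k m) (zz B) (ww x)

noncomputable def df (F : Finset ℕ) (k m : ℕ) (x : ℝ) (B : ℕ) [NeZero B] : ZMod B → ℝ :=
  push (DP F k m) (zz B) (ww x)

/-- one layer -/
lemma layer_le (F : Finset ℕ) (k m j : ℕ) (hjm : j ≤ m) (hmk : m ≤ k) (x : ℝ) (hx0 : 0 ≤ x)
    (B : ℕ) [NeZero B] (Q : ℝ)
    (hQ : ∀ ω ∈ DP F (k - j) (m - j), Q ≤ ee (F \ (ω.1 ∪ ω.2)) x j) (κ : ZMod B) :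
    Q * df F (k - j) (m - j) x B κ ≤
      ∑ ω ∈ (PW F k m).filter (fun ω => (ω.1 ∩ ω.2).card = j), if zz B ω = κ then ww x ω else 0 := by
  classical
  unfold df push
  rw [Finset.mul_sum]
  set I := (DP F (k - j) (m - j)).sigma (fun ω => (F \ (ω.1 ∪ ω.2)).powersetCard j) with hI
  have h1 : ∑ ω ∈ DP F (k - j) (m - j), Q * (if zz B ω = κ then ww x ω else 0) ≤
      ∑ p ∈ I, (if zz B p.1 = κ then ww x p.1 * x ^ (2 * ∑ a ∈ p.2, a) else 0) := by
    rw [hI, Finset.sum_sigma]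
    apply Finset.sum_le_sum
    intro ω hω
    simp only
    split_ifs with hc
    · rw [← Finset.mul_sum, mul_comm]
      exact mul_le_mul_of_nonneg_left (hQ ω hω) (ww_nonneg x hx0 ω)
    · simp
  refine h1.trans ?_
  have hdis : ∀ p ∈ I, Disjoint p.1.1 p.1.2 ∧ Disjoint p.1.1 p.2 ∧ Disjoint p.1.2 p.2 ∧
      p.2 ⊆ F ∧ p.2.card = j ∧ p.1.1 ⊆ F ∧ p.1.1.card = k - j ∧ p.1.2 ⊆ F ∧ p.1.2.card = m - j := by
    intro p hp
    rw [hI, Finset.mem_sigma, mem_DP, Finset.mem_powersetCard] at hp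
    obtain ⟨⟨⟨⟨a1, a2⟩, a3, a4⟩, a5⟩, a6, a7⟩ := hp
    refine ⟨a5, ?_, ?_, fun a ha => (Finset.mem_sdiff.1 (a6 ha)).1, a7, a1, a2, a3, a4⟩
    · rw [Finset.disjoint_left]
      intro a ha hb
      exact (Finset.mem_sdiff.1 (a6 hb)).2 (Finset.mem_union_left _ ha)
    · rw [Finset.disjoint_left]
      intro a ha hb
      exact (Finset.mem_sdiff.1 (a6 hb)).2 (Finset.mem_union_right _ ha)
  have hinter : ∀ p ∈ I, (p.1.1 ∪ p.2) ∩ (p.1.2 ∪ p.2) = p.2 := by
    intro p hp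
    obtain ⟨a1, a2, a3, _⟩ := hdis p hp
    ext a
    rw [Finset.mem_inter, Finset.mem_union, Finset.mem_union]
    constructor
    · rintro ⟨h1 | h1, h2 | h2⟩
      · exact absurd h2 (Finset.disjoint_left.1 a1 h1)
      · exact h2
      · exact h1
      · exact h1
    · intro h
      exact ⟨Or.inr h, Or.inr h⟩
  have hinj : Set.InjOn (fun p : (_ : Finset ℕ × Finset ℕ) × Finset ℕ =>
      ((p.1.1 ∪ p.2, p.1.2 ∪ p.2) : Finset ℕ × Finset ℕ)) (I : Set _) := by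
    rintro p hp p' hp' h
    rw [Finset.mem_coe] at hp hp'
    simp only [Prod.mk.injEq] at h
    have e1 : p.2 = p'.2 := by
      rw [← hinter p hp, ← hinter p' hp', h.1, h.2]
    obtain ⟨_, a2, a3, _⟩ := hdis p hp
    obtain ⟨_, b2, b3, _⟩ := hdis p' hp'
    have e2 : p.1.1 = p'.1.1 := by
      have h1 := h.1
      rw [← Finset.union_sdiff_cancel_right a2, ← Finset.union_sdiff_cancel_right b2, h1, e1]
    have e3 : p.1.2 = p'.1.2 := by
      have h1 := h.2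
      rw [← Finset.union_sdiff_cancel_right a3, ← Finset.union_sdiff_cancel_right b3, h1, e1]
    obtain ⟨⟨p1, p2⟩, p3⟩ := p
    obtain ⟨⟨q1, q2⟩, q3⟩ := p'
    simp only at e1 e2 e3
    subst e1 e2 e3
    rfl
  have h2 : ∑ p ∈ I, (if zz B p.1 = κ then ww x p.1 * x ^ (2 * ∑ a ∈ p.2, a) else 0)
      = ∑ ω ∈ I.image (fun p : (_ : Finset ℕ × Finset ℕ) × Finset ℕ =>
      ((p.1.1 ∪ p.2, p.1.2 ∪ p.2) : Finset ℕ × Finset ℕ)), if zz B ω = κ then ww x ω else 0 := by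
    rw [Finset.sum_image hinj]
    apply Finset.sum_congr rfl
    intro p hp
    obtain ⟨_, a2, a3, _⟩ := hdis p hp
    have e1 : zz B (p.1.1 ∪ p.2, p.1.2 ∪ p.2) = zz B p.1 := by
      unfold zz
      simp only
      rw [Finset.sum_union a2, Finset.sum_union a3]
      push_cast
      ring
    have e2 : ww x (p.1.1 ∪ p.2, p.1.2 ∪ p.2) = ww x p.1 * x ^ (2 * ∑ a ∈ p.2, a) := by
      unfold ww
      simp only
      rw [Finset.sum_union a2, Finset.sum_union a3, pow_add, pow_add, two_mul, pow_add]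
      ring
    rw [e1, e2]
  rw [h2]
  apply Finset.sum_le_sum_of_subset_of_nonneg
  · intro ω hω
    rw [Finset.mem_image] at hω
    obtain ⟨p, hp, rfl⟩ := hω
    obtain ⟨a1, a2, a3, a4, a5, a6, a7, a8, a9⟩ := hdis p hp
    rw [Finset.mem_filter, mem_PW]
    refine ⟨⟨⟨Finset.union_subset a6 a4, ?_⟩, ⟨Finset.union_subset a8 a4, ?_⟩⟩, ?_⟩
    · simp only
      rw [Finset.card_union_of_disjoint a2, a7, a5]
      omega
    · simp only
      rw [Finset.card_union_of_disjoint a3, a9, a5]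
      omega
    · simp only
      rw [hinter p hp, a5]
  · intro ω _ _
    split_ifs
    · exact ww_nonneg x hx0 ω
    · exact le_rfl

/-- the structured part of `s` -/
noncomputable def tq (F : Finset ℕ) (k m : ℕ) (x : ℝ) (B : ℕ) [NeZero B] (Q : ℕ → ℝ) :
    ZMod B → ℝ := fun κ => ∑ j ∈ range m, Q (j + 1) * df F (k - (j + 1)) (m - (j + 1)) x B κ

lemma tq_le (F : Finset ℕ) (k m : ℕ) (hmk : m ≤ k) (x : ℝ) (hx0 : 0 ≤ x)
    (B : ℕ) [NeZero B] (Q : ℕ → ℝ)
    (hQ : ∀ j < m, ∀ ω ∈ DP F (k - (j + 1)) (m - (j + 1)),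
      Q (j + 1) ≤ ee (F \ (ω.1 ∪ ω.2)) x (j + 1)) (κ : ZMod B) :
    tq F k m x B Q κ ≤ sf' F k m x B κ := by
  classical
  unfold tq sf' push
  have h1 : ∀ j ∈ range m, Q (j + 1) * df F (k - (j + 1)) (m - (j + 1)) x B κ ≤
      ∑ ω ∈ PW F k m, if (ω.1 ∩ ω.2).card = j + 1 then (if zz B ω = κ then ww x ω else 0) else 0 := by
    intro j hj
    rw [Finset.mem_range] at hj
    rw [← Finset.sum_filter]
    exact layer_le F k m (j + 1) hj hmk x hx0 B _ (hQ j hj) κ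
  refine (Finset.sum_le_sum h1).trans ?_
  rw [Finset.sum_comm]
  apply Finset.sum_le_sum
  intro ω _
  have h0 : 0 ≤ (if zz B ω = κ then ww x ω else 0) := by
    split_ifs
    · exact ww_nonneg x hx0 ω
    · exact le_rfl
  set v := (if zz B ω = κ then ww x ω else 0)
  calc ∑ j ∈ range m, (if (ω.1 ∩ ω.2).card = j + 1 then v else 0)
      ≤ ∑ j ∈ range m, (if j = (ω.1 ∩ ω.2).card - 1 then v else 0) := by
        apply Finset.sum_le_sum
        intro j _
        by_cases h : (ω.1 ∩ ω.2).card = j + 1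
        · rw [if_pos h, if_pos (by omega)]
        · rw [if_neg h]
          split_ifs
          · exact h0
          · exact le_rfl
    _ ≤ v := by
        rw [Finset.sum_ite_eq']
        split_ifs
        · exact le_rfl
        · exact h0

lemma df_nonneg (F : Finset ℕ) (k m : ℕ) (x : ℝ) (hx0 : 0 ≤ x) (B : ℕ) [NeZero B] (κ : ZMod B) :
    0 ≤ df F k m x B κ := push_nonneg _ _ _ (fun ω _ => ww_nonneg x hx0 ω) κ

lemma sf'_nonneg (F : Finset ℕ) (k m : ℕ) (x : ℝ) (hx0 : 0 ≤ x) (B : ℕ) [NeZero B] (κ : ZMod B) :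
    0 ≤ sf' F k m x B κ := push_nonneg _ _ _ (fun ω _ => ww_nonneg x hx0 ω) κ

lemma df_le (F : Finset ℕ) (k m : ℕ) (x : ℝ) (hx0 : 0 ≤ x) (B : ℕ) [NeZero B] (κ : ZMod B) :
    df F k m x B κ ≤ sf' F k m x B κ := by
  unfold df sf' push DP
  apply Finset.sum_le_sum_of_subset_of_nonneg (Finset.filter_subset _ _)
  intro ω _ _
  split_ifs
  · exact ww_nonneg x hx0 ω
  · exact le_rfl

/-- the weight of the disjoint pairs -/
lemma DP_ge (F : Finset ℕ) (a b : ℕ) (x : ℝ) (hx0 : 0 ≤ x) (hx1 : x ≤ 1) (q : ℝ) (hq : 0 ≤ q)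
    (h : q + (a + b) ≤ pp F x) :
    q ^ (a + b) / ((a.factorial : ℝ) * (b.factorial : ℝ)) ≤ ∑ ω ∈ DP F a b, x ^ (2 * nu ω) := by
  classical
  have h1 : ∑ ω ∈ DP F a b, x ^ (2 * nu ω)
      = ∑ V ∈ F.powersetCard a, x ^ (2 * ∑ a ∈ V, a) * ee (F \ V) x b := by
    unfold DP PW
    rw [Finset.sum_filter, Finset.sum_product]
    apply Finset.sum_congr rfl
    intro V _
    unfold ee
    rw [Finset.mul_sum, ← Finset.sum_filter]
    apply Finset.sum_congr
    · ext W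
      rw [Finset.mem_filter, Finset.mem_powersetCard, Finset.mem_powersetCard,
        Finset.subset_sdiff, disjoint_comm]
      tauto
    · intro W _
      unfold nu
      simp only
      rw [mul_add, pow_add]
  rw [h1]
  have ha : q ^ a / (a.factorial : ℝ) ≤ ee F x a :=
    ee_ge F x hx0 hx1 q hq a (by have : (0 : ℝ) ≤ b := Nat.cast_nonneg _; linarith)
  calc q ^ (a + b) / ((a.factorial : ℝ) * (b.factorial : ℝ))
      = (q ^ a / (a.factorial : ℝ)) * (q ^ b / (b.factorial : ℝ)) := by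
        rw [pow_add]; field_simp
    _ ≤ ee F x a * (q ^ b / (b.factorial : ℝ)) :=
        mul_le_mul_of_nonneg_right ha (by positivity)
    _ = ∑ V ∈ F.powersetCard a, x ^ (2 * ∑ a ∈ V, a) * (q ^ b / (b.factorial : ℝ)) := by
        unfold ee
        rw [Finset.sum_mul]
    _ ≤ _ := by
        apply Finset.sum_le_sum
        intro V hV
        rw [Finset.mem_powersetCard] at hV
        apply mul_le_mul_of_nonneg_left _ (by positivity)
        apply ee_ge _ x hx0 hx1 q hq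
        have h2 := pp_sdiff_ge F V x hx0 hx1
        rw [hV.2] at h2
        linarith

/-- Vandermonde, in the form needed -/
lemma vander (k m : ℕ) (hmk : m ≤ k) :
    ∑ j ∈ range m, (1 : ℝ) / (((j + 1).factorial : ℝ) ^ 2 *
      (((k - (j + 1)).factorial : ℝ) * ((m - (j + 1)).factorial : ℝ)))
      = (((k + m).choose m : ℝ) - 1) / ((k.factorial : ℝ) * (m.factorial : ℝ)) := by
  have h1 : ((k + m).choose m : ℝ) = 1 + ∑ j ∈ range m, (k.choose (j + 1) : ℝ) * (m.choose (j + 1) : ℝ) := by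
    have h2 : (k + m).choose m = ∑ j ∈ range (m + 1), k.choose j * m.choose j := by
      rw [Nat.add_choose_eq, Finset.Nat.sum_antidiagonal_eq_sum_range_succ
        (fun a b => k.choose a * m.choose b)]
      apply Finset.sum_congr rfl
      intro j hj
      rw [Finset.mem_range] at hj
      rw [Nat.choose_symm (by omega)]
    rw [h2, Finset.sum_range_succ']
    push_cast
    simp
    ring
  rw [h1, add_sub_cancel_left, Finset.sum_div]
  apply Finset.sum_congr rfl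
  intro j hj
  rw [Finset.mem_range] at hj
  rw [Nat.cast_choose ℝ (show j + 1 ≤ k by omega), Nat.cast_choose ℝ (show j + 1 ≤ m by omega)]
  have f1 : ((j + 1).factorial : ℝ) ≠ 0 := by exact_mod_cast Nat.factorial_ne_zero _
  have f2 : ((k - (j + 1)).factorial : ℝ) ≠ 0 := by exact_mod_cast Nat.factorial_ne_zero _
  have f3 : ((m - (j + 1)).factorial : ℝ) ≠ 0 := by exact_mod_cast Nat.factorial_ne_zero _
  have f4 : (k.factorial : ℝ) ≠ 0 := by exact_mod_cast Nat.factorial_ne_zero _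
  have f5 : (m.factorial : ℝ) ≠ 0 := by exact_mod_cast Nat.factorial_ne_zero _
  field_simp

end Pool.Agent.TH854.BV
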